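import Pool.Agent.H11.Cake.Defs

/-!
# The number of queries is polynomial
-/

namespace H25.Cake

open H11.Cake

/-- Functions bounded by a power of `n + 1`. -/
def PolyB (f : ℕ → ℕ) : Prop := ∃ a : ℕ, ∀ n : ℕ, 1 ≤ n → f n ≤ (n + 1) ^ a

theorem PolyB.mono {f g : ℕ → ℕ} (hg : PolyB g) (h : ∀ n, 1 ≤ n → f n ≤ g n) : PolyB f := by
  obtain ⟨a, ha⟩ := hg
  exact ⟨a, fun n hn => (h n hn).trans (ha n hn)⟩

theorem polyB_add {f g : ℕ → ℕ} (hf : PolyB f) (hg : PolyB g) : PolyB (fun n => f n + g n) := by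
  obtain ⟨a, ha⟩ := hf
  obtain ⟨b, hb⟩ := hg
  refine ⟨a + b + 1, fun n hn => ?_⟩
  have h1 : (n + 1) ^ a ≤ (n + 1) ^ (a + b) := Nat.pow_le_pow_right (by omega) (by omega)
  have h2 : (n + 1) ^ b ≤ (n + 1) ^ (a + b) := Nat.pow_le_pow_right (by omega) (by omega)
  have h5 := ha n hn
  have h6 := hb n hn
  show f n + g n ≤ _
  calc f n + g n ≤ (n + 1) ^ (a + b) * 2 := by omega
    _ ≤ (n + 1) ^ (a + b) * (n + 1) := Nat.mul_le_mul_left _ (by omega)
    _ = (n + 1) ^ (a + b + 1) := by rw [pow_succ]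

theorem polyB_mul {f g : ℕ → ℕ} (hf : PolyB f) (hg : PolyB g) : PolyB (fun n => f n * g n) := by
  obtain ⟨a, ha⟩ := hf
  obtain ⟨b, hb⟩ := hg
  refine ⟨a + b, fun n hn => ?_⟩
  show f n * g n ≤ _
  rw [pow_add]
  exact Nat.mul_le_mul (ha n hn) (hb n hn)

theorem polyB_const (c : ℕ) : PolyB (fun _ => c) := by
  refine ⟨c, fun n hn => ?_⟩
  calc c ≤ 2 ^ c := Nat.lt_two_pow_self.le
    _ ≤ (n + 1) ^ c := Nat.pow_le_pow_left (by omega) c

theorem polyB_id : PolyB (fun n => n) :=
  ⟨1, fun n _ => by rw [pow_one]; exact Nat.le_succ n⟩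

theorem polyB_pow {f : ℕ → ℕ} (hf : PolyB f) (c : ℕ) : PolyB (fun n => f n ^ c) := by
  induction c with
  | zero => simpa using polyB_const 1
  | succ c ih =>
    have := polyB_mul ih hf
    simpa [pow_succ] using this

/-- Sums `∑_{m ≤ n} m^2 f m` are polynomially bounded. -/
theorem polyB_rec {f g : ℕ → ℕ} (hf : PolyB f) (h0 : g 0 = 0)
    (hs : ∀ n, g (n + 1) = (n + 1) ^ 2 * f (n + 1) + g n) : PolyB g := by
  obtain ⟨a, ha⟩ := hf
  have key : ∀ n, g n ≤ n * ((n + 1) ^ 2 * (n + 1) ^ a) := by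
    intro n
    induction n with
    | zero => simp [h0]
    | succ n ih =>
      have h1 := ha (n + 1) (by omega)
      have h2 : (n + 1) ^ 2 ≤ (n + 1 + 1) ^ 2 := Nat.pow_le_pow_left (by omega) 2
      have h3 : (n + 1) ^ a ≤ (n + 1 + 1) ^ a := Nat.pow_le_pow_left (by omega) a
      calc g (n + 1) = (n + 1) ^ 2 * f (n + 1) + g n := hs n
        _ ≤ (n + 1 + 1) ^ 2 * (n + 1 + 1) ^ a + n * ((n + 1 + 1) ^ 2 * (n + 1 + 1) ^ a) :=
          Nat.add_le_add (Nat.mul_le_mul h2 h1)
            (ih.trans (Nat.mul_le_mul_left _ (Nat.mul_le_mul h2 h3)))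
        _ = (n + 1) * ((n + 1 + 1) ^ 2 * (n + 1 + 1) ^ a) := by ring
  refine PolyB.mono (polyB_mul polyB_id (polyB_mul (polyB_pow (polyB_add polyB_id
    (polyB_const 1)) 2) (polyB_pow (polyB_add polyB_id (polyB_const 1)) a))) (fun n _ => key n)

theorem PolyB.poly {f : ℕ → ℕ} (hf : PolyB f) :
    ∃ p : Polynomial ℕ, ∀ n : ℕ, 1 ≤ n → f n ≤ p.eval n := by
  obtain ⟨a, ha⟩ := hf
  refine ⟨(Polynomial.X + 1) ^ a, fun n hn => ?_⟩
  simpa using ha n hn

/-! ## The cost functions of `H11/Cake/Defs.lean` -/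

theorem polyB_m1 : PolyB m1 := by
  unfold m1
  exact polyB_add (polyB_const 2) (polyB_mul (polyB_add (polyB_mul (polyB_const 7) polyB_id)
    (polyB_const 26)) (polyB_add (polyB_pow polyB_id 2) (polyB_const 2)))

theorem polyB_coreQ : PolyB coreQ := by
  unfold coreQ
  exact polyB_add (polyB_add polyB_m1 polyB_id) (polyB_const 10)

theorem polyB_lin (a b : ℕ) : PolyB (fun n => a * n + b) :=
  polyB_add (polyB_mul (polyB_const a) polyB_id) (polyB_const b)

theorem polyB_emaxP : PolyB emaxP := by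
  unfold emaxP
  exact polyB_add polyB_coreQ (polyB_mul (polyB_lin 3 12)
    (polyB_add (polyB_pow polyB_id 2) (polyB_const 1)))

theorem polyB_ns {L : ℕ → ℕ} (hL : PolyB L) : PolyB (fun n => nsCost n (L n)) := by
  unfold nsCost
  exact polyB_mul hL (polyB_mul (polyB_const 2) (polyB_pow polyB_id 3))

theorem polyB_sh {s L : ℕ → ℕ} (hs : PolyB s) (hL : PolyB L) :
    PolyB (fun n => shCost n (s n) (L n)) := by
  unfold shCost
  exact polyB_mul hs (polyB_ns (polyB_add hL hs))

theorem polyB_prec2 : PolyB prec2 := by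
  unfold prec2
  exact polyB_mul (polyB_lin 3 12) (polyB_add (polyB_pow polyB_id 2) (polyB_const 3))

theorem polyB_polish : PolyB polishCost := by
  unfold polishCost level1Cost level2Cost
  exact polyB_mul (polyB_pow polyB_id 2) (polyB_add
    (polyB_add (polyB_sh (polyB_lin 2 1) (polyB_lin 3 10)) polyB_id)
    (polyB_add polyB_id (polyB_sh (polyB_add polyB_id (polyB_const 1)) polyB_prec2)))

theorem polyB_shrink {t : ℕ → ℕ} (ht : PolyB t) : PolyB (fun n => shrinkPCost n (t n)) := by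
  unfold shrinkPCost
  exact polyB_add (polyB_sh (polyB_add polyB_id (polyB_const 1))
    (polyB_add (polyB_add ht (polyB_mul (polyB_const 3) polyB_id)) (polyB_const 20))) polyB_polish

theorem polyB_fix : PolyB fixPCost := by
  unfold fixPCost
  exact polyB_add (polyB_ns (polyB_add polyB_emaxP (polyB_const 4))) polyB_polish

theorem polyB_core : PolyB coreCost := by
  unfold coreCost
  have h1 : PolyB corePartCost := by
    unfold corePartCost prec0
    exact polyB_add (polyB_sh (polyB_mul (polyB_const 2) polyB_id)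
      (polyB_add (polyB_add polyB_m1 (polyB_mul (polyB_const 3) polyB_id)) (polyB_const 10)))
      polyB_id
  have h2 : PolyB coreZCost := by
    unfold coreZCost
    exact polyB_add (polyB_sh (polyB_add polyB_id (polyB_const 1)) (polyB_lin 4 20)) polyB_polish
  have h3 : PolyB coreACost := by
    unfold coreACost
    exact polyB_add (polyB_sh (polyB_add polyB_id (polyB_const 1)) polyB_m1)
      (polyB_add (polyB_sh (polyB_const 2) polyB_m1) polyB_polish)
  have h4 : PolyB coreBCost := by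
    unfold coreBCost precB
    exact polyB_add (polyB_mul polyB_id (polyB_ns (polyB_add (polyB_add polyB_m1 polyB_id)
      (polyB_const 9)))) (polyB_add (polyB_sh (polyB_add polyB_id (polyB_const 1))
        (polyB_add (polyB_add (polyB_add polyB_m1 polyB_id) (polyB_const 7))
          (polyB_mul (polyB_lin 3 12) (polyB_add (polyB_pow polyB_id 2) (polyB_const 1)))))
        polyB_polish)
  exact polyB_add h1 (polyB_add polyB_id (polyB_add (polyB_mul polyB_id polyB_id)
    (polyB_add (polyB_add h2 h3) h4)))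

theorem polyB_phase : PolyB phasePCost := by
  unfold phasePCost
  exact polyB_add polyB_core (polyB_add polyB_fix (polyB_shrink polyB_emaxP))

theorem polyB_cost : PolyB costP :=
  polyB_rec polyB_phase rfl (fun _ => rfl)

/-- The bound for the number of queries. -/
theorem cost_poly : ∃ p : Polynomial ℕ, ∀ n : ℕ, 1 ≤ n → n + (n + 1) * costP n ≤ p.eval n :=
  (polyB_add polyB_id (polyB_mul (polyB_add polyB_id (polyB_const 1)) polyB_cost)).poly

end H25.Cake
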