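import Pool.Agent.H25.Cake2.PolA
import Pool.Agent.H11.Cake.Polish
import Pool.Agent.H11.Cake.Shares

/-!
# Case A of the core: some window is tiny for some agent   (JOB CO-A)

PROOF.  `n = card G`, `y k = (T b0).sum k > 0`, `t k = (T g).sum k ≤ y k` (`Win.le`), `λ = lam n j`,
`λ' = lam n (j+1) < λ ≤ 1/4` (`lam_succ`/`lam_anti`, `lam_le`).  `B = {k | λ y k < t k}`.
`i ∉ B` (`hg`), and `B` is nonempty: the agent `k` of `Win.eq g` has `t k = y k > λ y k`.
`g ≠ b0`: `(T b0).sum i = y i > λ' y i`.  So `1 ≤ B.card ≤ n - 1`; choose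
`I' ⊆ univ \ {b0, g}` with `I'.card = B.card - 1` (`≤ n - 2`), `I = insert b0 I'`: `b0 ∈ I`, `g ∉ I`,
`I.card = B.card`.
`shares (m1 n)` of `T g`, `ι = Option G` (`card = n+1`), `some b ↦ if b ∈ I then 1/(2 I.card) else 0`,
`none ↦ 1/2^(n+3)` (sum `≤ 1`), parts `D`, rest `W1` (frame: everything else); then
`shares (m1 n)` of `T b0` with `ι = Bool` (`card = 2`), both shares `λ / 2^(4n+15)` (sum `≤ 1`), parts
`S true = S1`, `S false = S2`, rest `W2` (frame: everything else).
The position is now `∑ b, x b + Z + W`, where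
`x b = P b + D (some b) + (if b = b0 then W2 else if b = g then 0 else T b)`,
`Z = D none + S1`, `W = W1 + S2`.  Values: `(x b).sum k = Q b k + A b k - (S1 k + S2 k if b = b0) - (t k
if b = g)` with `Q b k = (P b).sum k + (T b).sum k`, `A b k = (D (some b)).sum k`
(`S1 + S2 + W2` has the same sum as `T b0`).  `polA` gives `Pol`, and `coreOut_of` with `k0 ∈ B`,
`j = g` (`¬ E k0 g` since `g ∉ I`).  `hW`: `Z1 + S1 + W = Z1 + S1 + W1 + S2 ≤ t + y ≤ 2 y` (all parts are
nonnegative and the totals are preserved: `Force.bind_inv`).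
Total cost `shCost n (n+1) (m1 n) + (shCost n 2 (m1 n) + polishCost n) = coreACost n`.
-/

namespace H25.Cake

open H85.Cake H11.Cake

variable {G : Type}

theorem caseA [Fintype G] [DecidableEq G] [Nonempty G] {c b0 : G}
    {P T : G → Multiset (G → ℝ)} (hN : NN (∑ b, (P b + T b))) (hW : Win c b0 P T)
    (hy : ∀ k, 0 < (T b0).sum k) (j : ℕ) (hj : j ≤ Fintype.card G ^ 2)
    (hwin : ∀ k b, (T b).sum k ≤ lam (Fintype.card G) (j + 1) * (T b0).sum k ∨
      lam (Fintype.card G) j * (T b0).sum k < (T b).sum k)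
    (hg : ∃ g i, (T g).sum i ≤ lam (Fintype.card G) (j + 1) * (T b0).sum i) :
    Force CoreOut (coreACost (Fintype.card G)) (∑ b, (P b + T b)) := by
  classical
  obtain ⟨g, i, hgi⟩ := hg
  have hNb : ∀ b, NN (P b + T b) := fun b => nn_sum hN b
  have hNT : ∀ b, NN (T b) := fun b => (nn_add.1 (hNb b)).2
  have hl := lam_pos (Fintype.card G) j
  have hl4 := lam_le (Fintype.card G) j
  have hl' := lam_pos (Fintype.card G) (j + 1)
  have hl4' := lam_le (Fintype.card G) (j + 1)
  have hlle := lam_anti (Fintype.card G) (Nat.le_succ j)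
  have hgb : g ≠ b0 := by
    rintro rfl
    have h1 := hy i
    nlinarith
  have ht0 : ∀ k, 0 ≤ (T g).sum k := fun k => nonneg (hNT g) k
  have ht : ∀ k, (T g).sum k ≤ (T b0).sum k := fun k => hW.le g k
  -- the set of high agents
  obtain ⟨B, hB⟩ : ∃ B : Finset G, ∀ k, k ∈ B ↔
      lam (Fintype.card G) j * (T b0).sum k < (T g).sum k :=
    ⟨Finset.univ.filter (fun k => lam (Fintype.card G) j * (T b0).sum k < (T g).sum k),
      fun k => by simp⟩
  have hiB : i ∉ B := by
    rw [hB, not_lt]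
    refine hgi.trans ?_
    exact mul_le_mul_of_nonneg_right hlle (hy i).le
  obtain ⟨k0, hk0⟩ := hW.eq g
  have hk0B : k0 ∈ B := by
    rw [hB, hk0]
    have h1 := hy k0
    nlinarith
  have hB1 : 1 ≤ B.card := Finset.card_pos.2 ⟨k0, hk0B⟩
  have hBn : B.card + 1 ≤ Fintype.card G := by
    have h1 : (insert i B).card = B.card + 1 := Finset.card_insert_of_notMem hiB
    rw [← h1]
    exact Finset.card_le_univ _
  -- the set of bundles
  obtain ⟨I', hI's, hI'c⟩ : ∃ I' ⊆ (Finset.univ.erase g).erase b0, I'.card = B.card - 1 := by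
    apply Finset.exists_subset_card_eq
    rw [Finset.card_erase_of_mem (Finset.mem_erase.2 ⟨hgb.symm, Finset.mem_univ _⟩),
      Finset.card_erase_of_mem (Finset.mem_univ _), Finset.card_univ]
    omega
  have hb0I' : b0 ∉ I' := fun h => by
    have := hI's h
    simp at this
  have hgI' : g ∉ I' := fun h => by
    have := hI's h
    simp at this
  obtain ⟨I, hIdef⟩ : ∃ I, I = insert b0 I' := ⟨_, rfl⟩
  have hb0I : b0 ∈ I := by rw [hIdef]; exact Finset.mem_insert_self _ _
  have hgI : g ∉ I := by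
    rw [hIdef, Finset.mem_insert, not_or]
    exact ⟨hgb, hgI'⟩
  have hIc : B.card = I.card := by
    rw [hIdef, Finset.card_insert_of_notMem hb0I', hI'c]
    omega
  have hI0 : (0 : ℝ) < I.card := by
    rw [← hIc]
    exact_mod_cast hB1
  -- the first division
  let τ : Option G → ℝ := fun o => Option.elim o (1 / 2 ^ (Fintype.card G + 3))
    (fun b => if b ∈ I then 1 / (2 * (I.card : ℝ)) else 0)
  have hτ0 : ∀ o, 0 ≤ τ o := by
    rintro (_ | b)
    · simp only [τ, Option.elim_none]
      positivity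
    · simp only [τ, Option.elim_some]
      split_ifs
      · positivity
      · exact le_rfl
  have hτs : ∑ o, τ o ≤ 1 := by
    rw [Fintype.sum_option]
    simp only [τ, Option.elim_none, Option.elim_some]
    rw [Finset.sum_ite_mem, Finset.univ_inter, Finset.sum_const, nsmul_eq_mul]
    have h1 : (I.card : ℝ) * (1 / (2 * (I.card : ℝ))) = 1 / 2 := by
      field_simp
    have h2 : (1 : ℝ) / 2 ^ (Fintype.card G + 3) ≤ 1 / 2 := by
      apply one_div_le_one_div_of_le (by norm_num)
      calc (2 : ℝ) = 2 ^ 1 := by norm_num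
        _ ≤ 2 ^ (Fintype.card G + 3) := pow_le_pow_right₀ (by norm_num) (by omega)
    linarith
  have hτn : τ none = 1 / 2 ^ (Fintype.card G + 3) := rfl
  have hτb : ∀ b, τ (some b) = if b ∈ I then 1 / (2 * (I.card : ℝ)) else 0 := fun b => rfl
  clear_value τ
  have hsh1 := (shares (m1 (Fintype.card G)) τ hτ0 hτs (hNT g)).inv (hNT g)
  rw [Fintype.card_option] at hsh1
  obtain ⟨K1, hK1⟩ : ∃ K1, K1 = ∑ b, P b + ∑ b ∈ Finset.univ.erase g, T b := ⟨_, rfl⟩
  have hpos1 : ∑ b, (P b + T b) = T g + K1 := by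
    rw [hK1, Finset.sum_add_distrib, ← Finset.add_sum_erase _ T (Finset.mem_univ g)]
    abel
  rw [hpos1] at hN ⊢
  have hNK1 : NN K1 := (nn_add.1 hN).2
  unfold coreACost
  refine (hsh1.frame K1).bind ?_
  rintro M1 ⟨M1', ⟨⟨D, W1, rfl, hD, -⟩, hNN1, hsum1⟩, rfl⟩
  -- the second division
  let τ2 : Bool → ℝ := fun _ => lam (Fintype.card G) j / 2 ^ (4 * Fintype.card G + 15)
  have hτ20 : ∀ o, 0 ≤ τ2 o := fun o => by simp only [τ2]; positivity
  have hτ2s : ∑ o, τ2 o ≤ 1 := by
    simp only [τ2, Finset.sum_const, Finset.card_univ, Fintype.card_bool, nsmul_eq_mul]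
    have h1 : lam (Fintype.card G) j / 2 ^ (4 * Fintype.card G + 15) ≤
        lam (Fintype.card G) j := div_le_self hl.le (one_le_pow₀ (by norm_num))
    push_cast
    linarith
  have hτ2b : ∀ o, τ2 o = lam (Fintype.card G) j / 2 ^ (4 * Fintype.card G + 15) := fun o => rfl
  clear_value τ2
  have hsh2 := (shares (m1 (Fintype.card G)) τ2 hτ20 hτ2s (hNT b0)).inv (hNT b0)
  rw [Fintype.card_bool] at hsh2
  obtain ⟨K2, hK2⟩ : ∃ K2, K2 = ∑ o, D o + W1 + (∑ b, P b +
    ∑ b ∈ (Finset.univ.erase g).erase b0, T b) := ⟨_, rfl⟩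
  have hpos2 : ∑ o, D o + W1 + K1 = T b0 + K2 := by
    rw [hK1, hK2, ← Finset.add_sum_erase _ T (Finset.mem_erase.2 ⟨hgb.symm, Finset.mem_univ b0⟩)]
    abel
  have hNpos2 : NN (T b0 + K2) := by
    rw [← hpos2]
    exact nn_add.2 ⟨hNN1, hNK1⟩
  have hNK2 : NN K2 := (nn_add.1 hNpos2).2
  rw [hpos2]
  refine (hsh2.frame K2).bind ?_
  rintro M2 ⟨M2', ⟨⟨S, W2, rfl, hS, -⟩, hNN2, hsum2⟩, rfl⟩
  -- the final position
  obtain ⟨x, hx⟩ : ∃ x : G → Multiset (G → ℝ), ∀ b, x b = P b + D (some b) +
    (if b = b0 then W2 else if b = g then 0 else T b) := ⟨_, fun b => rfl⟩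
  have hpos3 : ∑ o, S o + W2 + K2 = ∑ b, x b + (D none + S true) + (W1 + S false) := by
    have h1 : ∑ b, x b = ∑ b, P b + ∑ b, D (some b) +
        (W2 + ∑ b ∈ (Finset.univ.erase g).erase b0, T b) := by
      simp only [hx]
      rw [Finset.sum_add_distrib, Finset.sum_add_distrib]
      congr 1
      rw [← Finset.add_sum_erase _ _ (Finset.mem_univ g),
        ← Finset.add_sum_erase _ _ (Finset.mem_erase.2 ⟨hgb.symm, Finset.mem_univ b0⟩)]
      rw [if_neg hgb, if_pos rfl, if_pos rfl, zero_add]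
      congr 1
      refine Finset.sum_congr rfl fun b hb => ?_
      rw [Finset.mem_erase, Finset.mem_erase] at hb
      rw [if_neg hb.1, if_neg hb.2.1]
    rw [h1, hK2, Fintype.sum_option, Fintype.sum_bool]
    abel
  have hNpos3 : NN (∑ b, x b + (D none + S true) + (W1 + S false)) := by
    rw [← hpos3]
    exact nn_add.2 ⟨hNN2, hNK2⟩
  rw [hpos3]
  -- values
  have hNS : ∀ o, NN (S o) := fun o => nn_sum (nn_add.1 hNN2).1 o
  have hNW2 : NN W2 := (nn_add.1 hNN2).2
  have hND : ∀ o, NN (D o) := fun o => nn_sum (nn_add.1 hNN1).1 o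
  have hNW1 : NN W1 := (nn_add.1 hNN1).2
  have hsT : ∀ k, (S true).sum k + (S false).sum k + W2.sum k = (T b0).sum k := by
    intro k
    rw [← hsum2, Fintype.sum_bool, sum_add_apply, sum_add_apply]
  have hsD : ∀ k, (D none).sum k + W1.sum k ≤ (T g).sum k := by
    intro k
    rw [← hsum1, Fintype.sum_option, sum_add_apply, sum_add_apply]
    have h1 : 0 ≤ (∑ b, D (some b)).sum k := by
      rw [sum_sum_apply]
      exact Finset.sum_nonneg fun b _ => nonneg (hND _) k
    linarith
  have hxk : ∀ b k, (x b).sum k = ((P b).sum k + (T b).sum k) + (D (some b)).sum k -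
      (if b = b0 then (S true).sum k + (S false).sum k else 0) -
      if b = g then (T g).sum k else 0 := by
    intro b k
    rw [hx, sum_add_apply, sum_add_apply]
    by_cases h1 : b = b0
    · subst h1
      rw [if_pos rfl, if_pos rfl, if_neg hgb.symm]
      have := hsT k
      linarith
    · by_cases h2 : b = g
      · subst h2
        rw [if_neg h1, if_neg h1, if_pos rfl, if_pos rfl, Multiset.sum_zero, Pi.zero_apply]
        ring
      · rw [if_neg h1, if_neg h1, if_neg h2, if_neg h2]
        ring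
  have hpol := polA b0 g hgb j hj (fun b k => (P b).sum k + (T b).sum k)
    (fun b k => (D (some b)).sum k) (fun k => (T b0).sum k) (fun k => (T g).sum k)
    (fun k => (D none).sum k) (fun k => (S true).sum k) (fun k => (S false).sum k)
    (fun k => W1.sum k + (S false).sum k) B I hy ht0 ht (fun k => hwin k g)
    (fun k b b' => hW.near k b b') hB hb0I hgI hIc (fun b k => nonneg (hND _) k)
    (fun k => nonneg (hND _) k) (fun b k => by rw [← hτb b]; exact hD (some b) k)
    (fun k => by rw [← hτn]; exact hD none k)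
    (fun k => by rw [← hτ2b true]; exact hS true k)
    (fun k => by rw [← hτ2b false]; exact hS false k)
    (fun k => by
      have h1 := hsT k
      have h2 := hsD k
      have h3 := nonneg hNW2 k
      have h4 := ht k
      linarith)
  obtain ⟨hp1, hp2⟩ := hpol
  refine coreOut_of x (D none + S true) (W1 + S false) hNpos3
    (E := fun k b => ((T g).sum k ≤ lam (Fintype.card G) (j + 1) * (T b0).sum k → b ≠ b0) ∧
      (lam (Fintype.card G) j * (T b0).sum k < (T g).sum k → b ∈ I)) ?_ k0 g ?_ ?_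
  · have e1 : (fun b k => (x b).sum k) = fun b k => ((P b).sum k + (T b).sum k) +
        (D (some b)).sum k - (if b = b0 then (S true).sum k + (S false).sum k else 0) -
        if b = g then (T g).sum k else 0 := by
      funext b k
      exact hxk b k
    have e2 : (fun k => (D none + S true).sum k) =
        fun k => (D none).sum k + (S true).sum k := by
      funext k
      rw [sum_add_apply]
    rw [e1, e2]
    exact hp1
  · rintro ⟨-, h2⟩
    exact hgI (h2 ((hB k0).1 hk0B))
  · rintro b ⟨-, h2⟩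
    have hbI : b ∈ I := h2 ((hB k0).1 hk0B)
    have h3 := hp2 k0 ((hB k0).1 hk0B) b hbI
    rw [hxk b k0, hxk g k0, sum_add_apply, sum_add_apply, if_pos (rfl : g = g), if_neg hgb]
    have e3 : ∀ a b : ℝ, a - 0 - b = a - b := fun a b => by ring
    rw [e3]
    exact h3

end H25.Cake
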