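import Pool.Agent.H25.Cake2.PolB
import Pool.Agent.H11.Cake.Polish
import Pool.Agent.H11.Cake.Shares

/-!
# Case B of the core: from a market with a significant slack   (JOB CO-B1)

PROOF.  `n = card G`, `u k = ∑ b, (X b).sum k > 0`, `V' b k = (V b).sum k`.  `gap` (file `H11/Cake/Basic`)
for `ι = G × G` (`card = n^2`), `s (k, b) = slk .. k b / u k` and `θ = xi n` (`xi_anti`): `α ≤ n^2` and
`slk ≤ xi (α+1) u` or `xi α u < slk` (multiply by `u k > 0`).
`shares (precB n)` of `U = ∑ b, X b` (`U.sum k = u k`) with `ι = Option G` (`card = n+1`):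
`some b ↦ τ b - xi n α / (4 n)` (`≥ 0`: `τ b ≥ xi n 0 ≥ xi n α`), `none ↦ xi n α / 4`; the sum is
`∑ τ = 1`.  Parts `D`, rest `W`.  The position is `∑ b, x b + Z + W`, `x b = V b + D (some b)`,
`Z = D none` (frame `∑ b, V b`).  `Z + W` has value `≤ u k` (total preserved, nonnegative parts).
`polB` and `coreOut_of` with `k0`, `j = b0`.
-/

namespace H25.Cake

open H85.Cake H11.Cake

variable {G : Type}

theorem caseB1 [Fintype G] [DecidableEq G] [Nonempty G] (V X : G → Multiset (G → ℝ))
    (hN : NN (∑ b, (V b + X b))) (hu : ∀ k, 0 < ∑ b, (X b).sum k)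
    {μ : Equiv.Perm G} {τ : G → ℝ}
    (hM : Market (fun b k => (V b).sum k) (fun k => ∑ b, (X b).sum k) μ τ) (k0 b0 : G)
    (hs : xi (Fintype.card G) 0 * ∑ b, (X b).sum k0 <
      slk (fun b k => (V b).sum k) (fun k => ∑ b, (X b).sum k) μ τ k0 b0) :
    Force CoreOut (shCost (Fintype.card G) (Fintype.card G + 1) (precB (Fintype.card G)) +
      polishCost (Fintype.card G)) (∑ b, (V b + X b)) := by
  classical
  set n := Fintype.card G with hn
  have hn1 : 1 ≤ n := Fintype.card_pos
  have hnR : (0:ℝ) < n := by exact_mod_cast hn1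
  have hnR1 : (1:ℝ) ≤ n := by exact_mod_cast hn1
  rw [Finset.sum_add_distrib] at hN ⊢
  obtain ⟨hNV, hNX⟩ := H11.Cake.nn_add.1 hN
  have hUk : ∀ k, (∑ b, X b).sum k = ∑ b, (X b).sum k := fun k => sum_sum_apply X k
  set u : G → ℝ := fun k => ∑ b, (X b).sum k with hudef
  -- a gap for the slacks
  obtain ⟨α, hα, hg⟩ := gap (ι := G × G)
    (fun q => slk (fun b k => (V b).sum k) u μ τ q.1 q.2 / u q.1) (xi n)
    (fun a b h => xi_anti n h)
  have hα' : α ≤ n ^ 2 := by
    rw [Fintype.card_prod, ← hn, ← sq] at hα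
    exact hα
  have hgap : ∀ k b, slk (fun b k => (V b).sum k) u μ τ k b ≤ xi n (α + 1) * u k ∨
      xi n α * u k < slk (fun b k => (V b).sum k) u μ τ k b := by
    intro k b
    rcases hg (k, b) with h | h
    · left
      exact (div_le_iff₀ (hu k)).1 h
    · right
      exact (lt_div_iff₀ (hu k)).1 h
  -- the shares
  have hξ : 0 < xi n α := xi_pos n α
  have hξ0 : xi n α ≤ xi n 0 := xi_anti n (Nat.zero_le α)
  have hξn : xi n α / (4 * (n:ℝ)) ≤ xi n α := by
    rw [div_le_iff₀ (by positivity)]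
    nlinarith
  have hsh := shares (precB n) (fun i : Option G => Option.elim i (xi n α / 4)
    (fun b => τ b - xi n α / (4 * (n:ℝ)))) (by
      rintro (_ | b)
      · simp only [Option.elim_none]
        positivity
      · simp only [Option.elim_some]
        have := hM.pos b
        linarith) (by
      rw [Fintype.sum_option]
      simp only [Option.elim_none, Option.elim_some]
      rw [Finset.sum_sub_distrib, hM.one, Finset.sum_const, Finset.card_univ, ← hn, nsmul_eq_mul]
      have : (n:ℝ) * (xi n α / (4 * (n:ℝ))) = xi n α / 4 := by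
        field_simp
      rw [this]
      linarith) hNX
  rw [Fintype.card_option, ← hn] at hsh
  have h1 := (hsh.inv hNX).frame (∑ b, V b)
  rw [add_comm (∑ b, X b)] at h1
  refine h1.bind ?_
  rintro M' ⟨M₁, ⟨⟨D, W, rfl, hD, -⟩, hNN, hsum⟩, rfl⟩
  have hNN' := hNN
  have hsumk : ∀ k, (∑ i, D i).sum k + W.sum k = u k := by
    intro k
    rw [← H11.Cake.sum_add_apply, hsum, hUk]
  rw [Fintype.sum_option] at hNN' hsumk
  obtain ⟨hN1, hNW⟩ := H11.Cake.nn_add.1 hNN'
  obtain ⟨hND, hNS⟩ := H11.Cake.nn_add.1 hN1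
  have eM : ∑ i, D i + W + ∑ b, V b = ∑ b, (V b + D (some b)) + D none + W := by
    rw [Fintype.sum_option, Finset.sum_add_distrib]
    abel
  have hNx : NN (∑ b, (V b + D (some b)) + D none + W) := by
    rw [← eM]
    exact H11.Cake.nn_add.2 ⟨hNN, hNV⟩
  rw [eM]
  have hD' : ∀ b k, |(D (some b)).sum k - (τ b - xi n α / (4 * (n:ℝ))) * u k| ≤
      u k / 2 ^ precB n := by
    intro b k
    have h := hD (some b) k
    rw [hUk] at h
    exact h
  have hZ' : ∀ k, |(D none).sum k - xi n α / 4 * u k| ≤ u k / 2 ^ precB n := by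
    intro k
    have h := hD none k
    rw [hUk] at h
    exact h
  have hZW : ∀ k, (D none).sum k + W.sum k ≤ u k := by
    intro k
    have h2 := hsumk k
    rw [H11.Cake.sum_add_apply] at h2
    have h3 : 0 ≤ (∑ b, D (some b)).sum k := nonneg hNS k
    linarith
  obtain ⟨hPol, hadv⟩ := polB (fun b k => (V b).sum k) (fun b k => (D (some b)).sum k) u
    (fun k => (D none).sum k) (fun k => W.sum k) hu hM α hα' hgap hD' hZ' hZW
  obtain ⟨hb0, hb⟩ := hadv k0 b0 hs
  have hPol' : Pol (fun k b => slk (fun b k => (V b).sum k) u μ τ k b ≤ xi n (α + 1) * u k)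
      (fun b k => (V b + D (some b)).sum k) (fun k => (D none).sum k) (eps n) := by
    have e : (fun b k => (V b + D (some b)).sum k) =
        (fun b k => (V b).sum k + (D (some b)).sum k) := by
      funext b k
      exact H11.Cake.sum_add_apply _ _ k
    rw [e]
    exact hPol
  refine coreOut_of (fun b => V b + D (some b)) (D none) W hNx hPol' k0 b0 hb0 ?_
  intro b hEb
  have h4 := hb b hEb
  simpa only [H11.Cake.sum_add_apply] using h4

end H25.Cake
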