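import Pool.Agent.H11.Cake.Basic

/-!
# Working on each member of a family   (JOB CO-FAM)

`famForce`.  PROOF.  Induction on a finset `s` of indices (`Finset.induction_on`): from
`∑ b ∈ s, C b` one can force in `s.card * N` splits `∃ C', M' = ∑ b ∈ s, C' b ∧ ∀ b ∈ s, ...`.
Step for `insert a s` (`a ∉ s`): `∑ = C a + ∑ b ∈ s, C b`; first `(h a).inv (hC a)` with the frame
`∑ b ∈ s, C b` (`Force.frame`), then (`Force.bind`) the induction hypothesis with the frame `C'_a`;
`C' := Function.update C'_s a C'_a` (see the proof of `cutEq_aux` in `H85/Cake/CutEq.lean` for the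
bookkeeping).  At the end `s = Finset.univ`.

`cutParts`.  PROOF: as `cutEq_aux` in `H85/Cake/CutEq.lean` (with `r b` instead of the constant `r`):
for a nonempty finset `s` and `M.sum c = ∑ b ∈ s, r b` one gets in `s.card` splits parts `T b`, `b ∈ s`,
with `(T b).sum c = r b` (`takePart c (r a)` for the new element `a`, the rest by the induction
hypothesis; for a single element take everything).
-/

namespace H25.Cake

open H85.Cake H11.Cake

variable {G : Type}

theorem fam_aux {ι : Type} [DecidableEq ι] {C : ι → Multiset (G → ℝ)}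
    (hC : ∀ b, NN (C b)) {Pr : ι → Multiset (G → ℝ) → Prop} {N : ℕ}
    (h : ∀ b, Force (Pr b) N (C b)) (s : Finset ι) :
    Force (fun M' => ∃ C' : ι → Multiset (G → ℝ), M' = ∑ b ∈ s, C' b ∧
      ∀ b ∈ s, Pr b (C' b) ∧ NN (C' b) ∧ (C' b).sum = (C b).sum) (s.card * N)
      (∑ b ∈ s, C b) := by
  induction s using Finset.induction_on with
  | empty => exact Force.done ⟨fun _ => 0, by simp, by simp⟩
  | insert a s ha ih =>
    rw [Finset.card_insert_of_notMem ha, Finset.sum_insert ha, add_mul, one_mul, add_comm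
      (s.card * N) N]
    refine (((h a).inv (hC a)).frame (∑ b ∈ s, C b)).bind ?_
    rintro M₁ ⟨A, hA, rfl⟩
    have h3 := ih.frame A
    rw [add_comm _ A] at h3
    refine h3.mono le_rfl ?_
    rintro M₂ ⟨M₃, ⟨C', rfl, hC'⟩, rfl⟩
    refine ⟨Function.update C' a A, ?_, ?_⟩
    · rw [Finset.sum_insert ha, Function.update_self, add_comm]
      congr 1
      refine Finset.sum_congr rfl fun b hb => ?_
      rw [Function.update_of_ne]
      rintro rfl
      exact ha hb
    · intro b hb
      rcases Finset.mem_insert.1 hb with h5 | h5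
      · rw [h5, Function.update_self]
        exact hA
      · have h6 : b ≠ a := fun h7 => ha (h7 ▸ h5)
        rw [Function.update_of_ne h6]
        exact hC' b h5

theorem famForce {ι : Type} [Fintype ι] [DecidableEq ι] {C : ι → Multiset (G → ℝ)}
    (hC : ∀ b, NN (C b)) {Pr : ι → Multiset (G → ℝ) → Prop} {N : ℕ}
    (h : ∀ b, Force (Pr b) N (C b)) :
    Force (fun M' => ∃ C' : ι → Multiset (G → ℝ), M' = ∑ b, C' b ∧
      ∀ b, Pr b (C' b) ∧ NN (C' b) ∧ (C' b).sum = (C b).sum) (Fintype.card ι * N) (∑ b, C b) := by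
  have h1 := fam_aux hC h Finset.univ
  rw [Finset.card_univ] at h1
  refine h1.mono le_rfl ?_
  rintro M' ⟨C', h2, h3⟩
  exact ⟨C', h2, fun b => h3 b (Finset.mem_univ b)⟩

theorem cutParts_aux (c : G) (r : G → ℝ) (hr : ∀ b, 0 ≤ r b) (s : Finset G)
    (hs : s.Nonempty) :
    ∀ M : Multiset (G → ℝ), NN M → ∑ b ∈ s, r b = M.sum c →
      Force (fun M' => ∃ T : G → Multiset (G → ℝ), M' = ∑ b ∈ s, T b ∧
        ∀ b ∈ s, (T b).sum c = r b) s.card M := by
  classical
  induction hs using Finset.Nonempty.cons_induction with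
  | singleton a =>
    intro M _ hS
    refine Force.done ⟨fun _ => M, by simp, fun b hb => ?_⟩
    rw [Finset.mem_singleton.1 hb, ← hS, Finset.sum_singleton]
  | cons a s ha hs ih =>
    intro M hM hS
    rw [Finset.sum_cons] at hS
    rw [Finset.card_cons]
    have hsr : 0 ≤ ∑ b ∈ s, r b := Finset.sum_nonneg fun b _ => hr b
    have h1 := takePart c (r a) hM (hr a) (by linarith)
    have h2 := h1.bind_inv (Q := fun M' => ∃ T : G → Multiset (G → ℝ),
      M' = ∑ b ∈ Finset.cons a s ha, T b ∧ ∀ b ∈ Finset.cons a s ha, (T b).sum c = r b)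
      (N' := s.card) hM (by
        rintro M₁ ⟨A, B, rfl, hA⟩ hN hS1
        have hB : NN B := (nn_add.1 hN).2
        have hBS : ∑ b ∈ s, r b = B.sum c := by
          have h3 := congrFun hS1 c
          rw [Multiset.sum_add, Pi.add_apply, hA, ← hS] at h3
          linarith
        have h4 := (ih B hB hBS).frame A
        rw [add_comm B] at h4
        refine h4.mono le_rfl ?_
        rintro M₂ ⟨M₁, ⟨P, rfl, hP⟩, rfl⟩
        refine ⟨Function.update P a A, ?_, ?_⟩
        · rw [Finset.sum_cons, Function.update_self, add_comm]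
          congr 1
          refine Finset.sum_congr rfl fun b hb => ?_
          rw [Function.update_of_ne]
          rintro rfl
          exact ha hb
        · intro b hb
          rcases Finset.mem_cons.1 hb with h5 | h5
          · rw [h5, Function.update_self]
            exact hA
          · have h6 : b ≠ a := fun h7 => ha (h7 ▸ h5)
            rw [Function.update_of_ne h6]
            exact hP b h5)
    rw [add_comm] at h2
    exact h2

theorem cutParts [Fintype G] [DecidableEq G] (c : G) (r : G → ℝ) (hr : ∀ b, 0 ≤ r b)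
    {M : Multiset (G → ℝ)} (hM : NN M) (hS : ∑ b, r b = M.sum c) :
    Force (fun M' => ∃ T : G → Multiset (G → ℝ), M' = ∑ b, T b ∧ ∀ b, (T b).sum c = r b)
      (Fintype.card G) M := by
  have h := cutParts_aux c r hr Finset.univ ⟨c, Finset.mem_univ c⟩ M hM hS
  rw [Finset.card_univ] at h
  refine h.mono le_rfl ?_
  rintro M' ⟨T, h1, h2⟩
  exact ⟨T, h1, fun b => h2 b (Finset.mem_univ b)⟩

end H25.Cake
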