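import Pool.Agent.H25.Cake2.MarketDef

/-!
# Case B of the core: the two markets cannot both be degenerate   (JOB CO-TWO)

`n = card G`, `θ = xi n 0 = 1 / 2^(m1 + n + 7)`, `δ = 1 / 2^(m1 + n + 9)`, `u k = ∑ b, T b k`,
`u' k = ∑ b, S b k`.
PROOF.  Suppose `slk ≤ θ u` for all pairs in market 1 (`X = T`) and `slk ≤ θ u'` for all pairs in market
2 (`X = S`).  Slacks are `≥ 0` (`opt`), so for all `k, b, b'`:
(1) `|(Q b k - T b k + τ b u k) - (Q b' k - T b' k + τ b' u k)| ≤ θ u k`,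
(2) `|(Q b k - S b k + τ' b u' k) - (Q b' k - S b' k + τ' b' u' k)| ≤ θ u' k`.
`2 * (2) - (1)`, with `κ = (τ' b - τ' b') - (τ b - τ b')`:
`(Q b k - Q b' k) + κ u k = 2 * [(2)] - [(1)] - (T b k - 2 S b k) + (T b' k - 2 S b' k)
 - (τ' b - τ' b') (2 u' k - u k)`.
`|T b k - 2 S b k| ≤ 2 δ T b k ≤ 2 δ u k`, `|2 u' k - u k| ≤ 2 δ u k`, `|τ' b - τ' b'| ≤ 1` (`τ' ≥ 0`,
sum `1`), `2 θ u' k ≤ θ (1 + 2 δ) u k ≤ 2 θ u k`.  So
(3) `|(Q b k - Q b' k) + κ u k| ≤ (3 θ + 6 δ) u k`.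
For `k = c`: `Q b c = Q b' c`, `u c > 0`: `|κ| ≤ 3 θ + 6 δ`.  So `|Q b k - Q b' k| ≤ (6 θ + 12 δ) u k ≤
(6 θ + 12 δ) n y k` for all `k` (`u k ≤ n y k`).  For `i, b, b'` from `hstar`:
`y i / 2^m1 ≤ (6 θ + 12 δ) n y i`, but `(6 θ + 12 δ) n = (6/2^7 + 12/2^9) * (n/2^n) / 2^m1 < 1 / 2^m1`
(`n ≤ 2^n`).  Contradiction.
-/

namespace H25.Cake

open H85.Cake H11.Cake

variable {G : Type}

theorem two_abs [Fintype G] {V : G → G → ℝ} {u : G → ℝ} {μ : Equiv.Perm G} {τ : G → ℝ}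
    (h : Market V u μ τ) {θ : ℝ} {k : G} (hs : ∀ b, slk V u μ τ k b ≤ θ * u k) (b b' : G) :
    |(V b k + τ b * u k) - (V b' k + τ b' * u k)| ≤ θ * u k := by
  have h1 := h.opt k b
  have h2 := h.opt k b'
  have h3 := hs b
  have h4 := hs b'
  unfold slk at h1 h2 h3 h4
  rw [abs_le]
  constructor <;> linarith

theorem two_alg {D t t' s s' u u' a a' c c' θ δ : ℝ} (hu : 0 ≤ u) (hθ : 0 ≤ θ) (hδ : 0 ≤ δ)
    (hδ1 : δ ≤ 1 / 2)
    (h1 : |D - (t - t') + (a - a') * u| ≤ θ * u)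
    (h2 : |D - (s - s') + (c - c') * u'| ≤ θ * u')
    (hs : |s - 1 / 2 * t| ≤ u * δ) (hs' : |s' - 1 / 2 * t'| ≤ u * δ)
    (hu' : |u' - 1 / 2 * u| ≤ u * δ) (hc : |c - c'| ≤ 1) :
    |D + ((c - c') - (a - a')) * u| ≤ (3 * θ + 6 * δ) * u := by
  have h3 : |(c - c') * (u' - 1 / 2 * u)| ≤ u * δ := by
    rw [abs_mul]
    calc |c - c'| * |u' - 1 / 2 * u| ≤ 1 * (u * δ) :=
          mul_le_mul hc hu' (abs_nonneg _) zero_le_one
      _ = u * δ := one_mul _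
  have h4 : θ * u' ≤ θ * u := by
    apply mul_le_mul_of_nonneg_left _ hθ
    have := (abs_le.1 hu').2
    nlinarith
  have e : D + ((c - c') - (a - a')) * u = 2 * (D - (s - s') + (c - c') * u') -
      (D - (t - t') + (a - a') * u) + 2 * (s - 1 / 2 * t) - 2 * (s' - 1 / 2 * t') -
      2 * ((c - c') * (u' - 1 / 2 * u)) := by ring
  rw [e]
  rw [abs_le] at *
  obtain ⟨h1a, h1b⟩ := h1
  obtain ⟨h2a, h2b⟩ := h2
  obtain ⟨hsa, hsb⟩ := hs
  obtain ⟨hsa', hsb'⟩ := hs'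
  obtain ⟨h3a, h3b⟩ := h3
  constructor <;> nlinarith

theorem two_markets [Fintype G] [DecidableEq G] (c : G) (Q T S : G → G → ℝ) (y : G → ℝ)
    (hy : ∀ k, 0 < y k) (hcut : ∀ b b', Q b c = Q b' c)
    (hstar : ∃ i b b', |Q b i - Q b' i| = y i / 2 ^ m1 (Fintype.card G))
    (hT : ∀ b k, T b k ≤ y k) (hT0 : ∀ b k, 0 < T b k)
    (hS : ∀ b k, |S b k - 1 / 2 * T b k| ≤
      T b k / 2 ^ (m1 (Fintype.card G) + Fintype.card G + 9))
    {μ μ' : Equiv.Perm G} {τ τ' : G → ℝ}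
    (h1 : Market (fun b k => Q b k - T b k) (fun k => ∑ b, T b k) μ τ)
    (h2 : Market (fun b k => Q b k - S b k) (fun k => ∑ b, S b k) μ' τ')
    (hs1 : ∀ k b, slk (fun b k => Q b k - T b k) (fun k => ∑ b, T b k) μ τ k b ≤
      xi (Fintype.card G) 0 * ∑ b, T b k)
    (hs2 : ∀ k b, slk (fun b k => Q b k - S b k) (fun k => ∑ b, S b k) μ' τ' k b ≤
      xi (Fintype.card G) 0 * ∑ b, S b k) : False := by
  set n := Fintype.card G with hn
  set e : ℝ := 1 / 2 ^ m1 n with he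
  have he0 : 0 < e := by positivity
  set r : ℝ := 1 / 2 ^ n with hr
  have hr0 : 0 < r := by positivity
  have hr1 : r ≤ 1 := by
    rw [hr, div_le_one (by positivity)]
    exact one_le_pow₀ one_le_two
  have he1 : e ≤ 1 := by
    rw [he, div_le_one (by positivity)]
    exact one_le_pow₀ one_le_two
  have hnr : (n : ℝ) * r ≤ 1 := by
    rw [hr, mul_one_div, div_le_one (by positivity)]
    exact_mod_cast (Nat.lt_two_pow_self (n := n)).le
  have hθ : xi n 0 = e * r / 128 := by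
    rw [xi, he, hr, Nat.mul_zero, Nat.add_zero, pow_add, pow_add]
    norm_num
    ring
  set δ : ℝ := e * r / 512 with hδ
  have hδ' : ∀ x : ℝ, x / 2 ^ (m1 n + n + 9) = x * δ := by
    intro x
    rw [hδ, he, hr, pow_add, pow_add]
    norm_num
    ring
  have hδ0 : 0 < δ := by positivity
  have her : e * r ≤ 1 := by nlinarith
  have hδ1 : δ ≤ 1 / 2 := by rw [hδ]; linarith
  rw [hθ] at hs1 hs2
  set θ : ℝ := e * r / 128 with hθ'
  have hθ0 : 0 < θ := by positivity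
  have hu0 : ∀ k, 0 < ∑ b, T b k := fun k =>
    Finset.sum_pos (fun b _ => hT0 b k) ⟨c, Finset.mem_univ c⟩
  have hTu : ∀ b k, T b k ≤ ∑ b, T b k := fun b k =>
    Finset.single_le_sum (f := fun b => T b k) (fun b _ => (hT0 b k).le) (Finset.mem_univ b)
  have hS' : ∀ b k, |S b k - 1 / 2 * T b k| ≤ (∑ b, T b k) * δ := by
    intro b k
    refine (hS b k).trans ?_
    rw [hδ']
    exact mul_le_mul_of_nonneg_right (hTu b k) hδ0.le
  have hu' : ∀ k, |(∑ b, S b k) - 1 / 2 * ∑ b, T b k| ≤ (∑ b, T b k) * δ := by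
    intro k
    rw [Finset.mul_sum, ← Finset.sum_sub_distrib, Finset.sum_mul]
    refine (Finset.abs_sum_le_sum_abs _ _).trans (Finset.sum_le_sum fun b _ => ?_)
    rw [← hδ']
    exact hS b k
  have hτ0 : ∀ b, 0 ≤ τ' b := fun b => by
    refine le_trans ?_ (h2.pos b)
    rw [← hn, hθ]
    exact hθ0.le
  have hτ1 : ∀ b, τ' b ≤ 1 := fun b => by
    rw [← h2.one]
    exact Finset.single_le_sum (fun b _ => hτ0 b) (Finset.mem_univ b)
  have key : ∀ k b b', |(Q b k - Q b' k) + ((τ' b - τ' b') - (τ b - τ b')) * ∑ b, T b k| ≤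
      (3 * θ + 6 * δ) * ∑ b, T b k := by
    intro k b b'
    have a1 := two_abs h1 (θ := θ) (k := k) (fun b => hs1 k b) b b'
    have a2 := two_abs h2 (θ := θ) (k := k) (fun b => hs2 k b) b b'
    refine two_alg (t := T b k) (t' := T b' k) (s := S b k) (s' := S b' k)
      (u' := ∑ b, S b k) (hu0 k).le hθ0.le hδ0.le hδ1 ?_ ?_ (hS' b k) (hS' b' k) (hu' k) ?_
    · refine le_of_eq_of_le (congrArg abs ?_) a1
      ring
    · refine le_of_eq_of_le (congrArg abs ?_) a2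
      ring
    · rw [abs_le]
      constructor <;> linarith [hτ0 b, hτ0 b', hτ1 b, hτ1 b']
  obtain ⟨i, b, b', hi⟩ := hstar
  have k1 := key c b b'
  rw [hcut b b', sub_self, zero_add, abs_mul, abs_of_pos (hu0 c)] at k1
  have k2 : |(τ' b - τ' b') - (τ b - τ b')| ≤ 3 * θ + 6 * δ := le_of_mul_le_mul_right k1 (hu0 c)
  have k3 := key i b b'
  have k4 : |((τ' b - τ' b') - (τ b - τ b')) * ∑ b, T b i| ≤ (3 * θ + 6 * δ) * ∑ b, T b i := by
    rw [abs_mul, abs_of_pos (hu0 i)]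
    exact mul_le_mul_of_nonneg_right k2 (hu0 i).le
  have k5 : |Q b i - Q b' i| ≤ (6 * θ + 12 * δ) * ∑ b, T b i := by
    rw [abs_le] at *
    constructor <;> linarith [k3.1, k3.2, k4.1, k4.2]
  have k6 : ∑ b, T b i ≤ n * y i := by
    calc ∑ b, T b i ≤ ∑ _b : G, y i := Finset.sum_le_sum fun b _ => hT b i
      _ = n * y i := by rw [Finset.sum_const, Finset.card_univ, nsmul_eq_mul, hn]
  have k7 : |Q b i - Q b' i| = y i * e := by rw [hi, he]; ring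
  have k8 : (6 * θ + 12 * δ) * ∑ b, T b i ≤ (6 * θ + 12 * δ) * (n * y i) :=
    mul_le_mul_of_nonneg_left k6 (by positivity)
  have k9 : (6 * θ + 12 * δ) * (n * y i) = (36 / 512) * (n * r) * (y i * e) := by
    rw [hθ', hδ]
    ring
  have hye : 0 < y i * e := mul_pos (hy i) he0
  nlinarith

end H25.Cake
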