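import Pool.Agent.H25.Cake2.MarketEx
import Pool.Agent.H25.Cake2.Two
import Pool.Agent.H25.Cake2.CaseB1
import Pool.Agent.H25.Cake2.Fam

/-!
# Case B of the core   (JOB CO-B)

PROOF.  `n = card G`, `y k = (T b0).sum k > 0`, `L = m1 n + n + 9`.  `nearShare L (1/2)` for every `T b`
(`famForce`, cost `n * nsCost n L`; frame `∑ b, P b`): `T' b = S b + S' b`, `(T' b).sum = (T b).sum`,
`|(S b).sum k - 1/2 (T b).sum k| ≤ (T b).sum k / 2^L`.  Position `∑ b, (P b + (S b + S' b))`.
`Q b k = (P b).sum k + (T b).sum k`.  `(T b).sum k > λ y k > 0` (`hbig`, `lam_pos`) and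
`(S b).sum k ≥ (1/2 - 1/2^L) (T b).sum k ≥ (T b).sum k / 4 ≥ λ/4 * y k`, `(S b).sum k ≤ (T b).sum k`
(`S' b` nonnegative), so `(S b).sum k ≤ y k` (`Win.le`).
`market_exists` for `X = T` gives `μ, τ`, for `X = S` gives `μ', τ'`.  By `two_markets` (and `Win.star`,
`Win.cut`) not all slacks are small in both, so one of the two has `k0, b0` with
`xi n 0 * u k0 < slk .. k0 b0`.
(1) `X = T`: `caseB1` with `V b = P b`, `X b = S b + S' b` (values `Q b k - T b k = (P b).sum k`).
(2) `X = S`: `caseB1` with `V b = P b + S' b`, `X b = S b` (`Q b k - (S b).sum k = (P b + S' b).sum k`);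
the position is the same multiset.
-/

namespace H25.Cake

open H85.Cake H11.Cake

variable {G : Type}

theorem caseB [Fintype G] [DecidableEq G] [Nonempty G] {c b0 : G}
    {P T : G → Multiset (G → ℝ)} (hN : NN (∑ b, (P b + T b))) (hW : Win c b0 P T)
    (hy : ∀ k, 0 < (T b0).sum k) (j : ℕ) (hj : j ≤ Fintype.card G ^ 2)
    (hbig : ∀ k b, lam (Fintype.card G) j * (T b0).sum k < (T b).sum k) :
    Force CoreOut (coreBCost (Fintype.card G)) (∑ b, (P b + T b)) := by
  classical
  set n := Fintype.card G with hn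
  have hNb : ∀ b, NN (P b + T b) := fun b => H11.Cake.nn_sum hN b
  have hNP : ∀ b, NN (P b) := fun b => (H11.Cake.nn_add.1 (hNb b)).1
  have hNT : ∀ b, NN (T b) := fun b => (H11.Cake.nn_add.1 (hNb b)).2
  have hlam : 0 < lam n j := lam_pos n j
  have hTpos : ∀ b k, 0 < (T b).sum k := fun b k =>
    lt_trans (mul_pos hlam (hy k)) (hbig k b)
  have e0 : ∑ b, (P b + T b) = ∑ b, T b + ∑ b, P b := by
    rw [Finset.sum_add_distrib, add_comm]
  rw [e0]
  refine Force.bind (N := n * nsCost n (m1 n + n + 9))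
    ((famForce (C := T) hNT (N := nsCost n (m1 n + n + 9))
      (Pr := fun b M' => ∃ A B : Multiset (G → ℝ), M' = A + B ∧
        ∀ k, |A.sum k - 1 / 2 * (T b).sum k| ≤ (T b).sum k / 2 ^ (m1 n + n + 9))
      (fun b => nearShare (m1 n + n + 9) (1 / 2) (by norm_num) (by norm_num) (hNT b))).frame
      (∑ b, P b)) ?_
  rintro M' ⟨M₁, ⟨C', rfl, hC'⟩, rfl⟩
  have hch : ∀ b, ∃ A B : Multiset (G → ℝ), C' b = A + B ∧
      ∀ k, |A.sum k - 1 / 2 * (T b).sum k| ≤ (T b).sum k / 2 ^ (m1 n + n + 9) := fun b => (hC' b).1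
  choose S S' hSS hS using hch
  have hC : C' = fun b => S b + S' b := funext hSS
  have hNS : ∀ b, NN (S b) := fun b => (H11.Cake.nn_add.1 (hSS b ▸ (hC' b).2.1)).1
  have hNS' : ∀ b, NN (S' b) := fun b => (H11.Cake.nn_add.1 (hSS b ▸ (hC' b).2.1)).2
  have hsum : ∀ b k, (S b).sum k + (S' b).sum k = (T b).sum k := by
    intro b k
    rw [← sum_add_apply, ← hSS b, (hC' b).2.2]
  -- bounds for the halves
  have hSlow : ∀ b k, (T b).sum k / 4 ≤ (S b).sum k := by
    intro b k
    have h1 := (abs_le.1 (hS b k)).1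
    have h2 : (T b).sum k / 2 ^ (m1 n + n + 9) ≤ (T b).sum k / 4 := by
      apply div_le_div_of_nonneg_left (hTpos b k).le (by norm_num)
      calc (4 : ℝ) = 2 ^ 2 := by norm_num
        _ ≤ 2 ^ (m1 n + n + 9) := pow_le_pow_right₀ (by norm_num) (by omega)
    linarith
  have hSup : ∀ b k, (S b).sum k ≤ (T b).sum k := by
    intro b k
    have h1 := nonneg (hNS' b) k
    have h2 := hsum b k
    linarith
  have hSpos : ∀ b k, 0 < (S b).sum k := fun b k =>
    lt_of_lt_of_le (by have := hTpos b k; positivity) (hSlow b k)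
  -- the two markets
  obtain ⟨μ, τ, hM1⟩ := market_exists (fun b k => (P b).sum k + (T b).sum k)
    (fun b k => (T b).sum k) (fun k => (T b0).sum k) j hj hy hW.near hW.le (by
      intro b k
      have h1 := hbig k b
      have h2 := mul_pos hlam (hy k)
      linarith)
  obtain ⟨μ', τ', hM2⟩ := market_exists (fun b k => (P b).sum k + (T b).sum k)
    (fun b k => (S b).sum k) (fun k => (T b0).sum k) j hj hy hW.near
    (fun b k => (hSup b k).trans (hW.le b k)) (by
      intro b k
      have h1 := hbig k b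
      have h2 := hSlow b k
      linarith)
  by_cases hs1 : ∀ k b, slk (fun b k => (P b).sum k + (T b).sum k - (T b).sum k)
      (fun k => ∑ b, (T b).sum k) μ τ k b ≤ xi n 0 * ∑ b, (T b).sum k
  · by_cases hs2 : ∀ k b, slk (fun b k => (P b).sum k + (T b).sum k - (S b).sum k)
        (fun k => ∑ b, (S b).sum k) μ' τ' k b ≤ xi n 0 * ∑ b, (S b).sum k
    · exfalso
      obtain ⟨i, b, b', -, h3⟩ := hW.star
      exact two_markets c (fun b k => (P b).sum k + (T b).sum k) (fun b k => (T b).sum k)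
        (fun b k => (S b).sum k) (fun k => (T b0).sum k) hy hW.cut ⟨i, b, b', h3⟩
        hW.le hTpos hS hM1 hM2 hs1 hs2
    · push Not at hs2
      obtain ⟨k0, b1, h5⟩ := hs2
      have e1 : (fun b k => (P b).sum k + (T b).sum k - (S b).sum k) =
          fun b k => (P b + S' b).sum k := by
        funext b k
        rw [sum_add_apply, ← hsum b k]
        ring
      have e2 : ∑ b, C' b + ∑ b, P b = ∑ b, ((P b + S' b) + S b) := by
        rw [← Finset.sum_add_distrib]
        refine Finset.sum_congr rfl fun b _ => ?_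
        rw [hSS b]
        abel
      simp only [e1] at h5 hM2
      rw [e2]
      refine caseB1 (fun b => P b + S' b) S ?_ ?_ hM2 k0 b1 h5
      · rw [H11.Cake.nn_sum_iff]
        exact fun b => H11.Cake.nn_add.2 ⟨H11.Cake.nn_add.2 ⟨hNP b, hNS' b⟩, hNS b⟩
      · exact fun k => Finset.sum_pos (fun b _ => hSpos b k) Finset.univ_nonempty
  · push Not at hs1
    obtain ⟨k0, b1, h5⟩ := hs1
    have e1 : (fun b k => (P b).sum k + (T b).sum k - (T b).sum k) = fun b k => (P b).sum k := by
      funext b k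
      ring
    have e3 : ∀ b k, (T b).sum k = (S b + S' b).sum k := by
      intro b k
      rw [sum_add_apply, hsum b k]
    have e2 : ∑ b, C' b + ∑ b, P b = ∑ b, (P b + (S b + S' b)) := by
      rw [← Finset.sum_add_distrib]
      refine Finset.sum_congr rfl fun b _ => ?_
      rw [hSS b, add_comm]
    simp only [e1] at h5 hM1
    simp only [e3] at h5 hM1
    rw [e2]
    refine caseB1 P (fun b => S b + S' b) ?_ ?_ hM1 k0 b1 h5
    · rw [H11.Cake.nn_sum_iff]
      exact fun b => H11.Cake.nn_add.2 ⟨hNP b, H11.Cake.nn_add.2 ⟨hNS b, hNS' b⟩⟩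
    · intro k
      refine Finset.sum_pos (fun b _ => ?_) Finset.univ_nonempty
      rw [← e3]
      exact hTpos b k

end H25.Cake
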