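import Pool.Agent.H11.Cake.Basic

/-!
# Windows: the definition
-/

namespace H25.Cake

open H85.Cake H11.Cake

variable {G : Type}

/-- A partition `P b + T b` of the cake, equal for `c`, such that the differences of the bundles
are at most `2^-m1` times the window `T b0` (equality for some agent), all windows `T b` at most
as large as `T b0`, with equality for some agent. -/
structure Win [Fintype G] (c b0 : G) (P T : G → Multiset (G → ℝ)) : Prop where
  near : ∀ k b b', |((P b).sum k + (T b).sum k) - ((P b').sum k + (T b').sum k)| ≤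
    (T b0).sum k / 2 ^ m1 (Fintype.card G)
  star : ∃ i b b', 0 < (T b0).sum i ∧ |((P b).sum i + (T b).sum i) -
    ((P b').sum i + (T b').sum i)| = (T b0).sum i / 2 ^ m1 (Fintype.card G)
  cut : ∀ b b', (P b).sum c + (T b).sum c = (P b').sum c + (T b').sum c
  le : ∀ b k, (T b).sum k ≤ (T b0).sum k
  eq : ∀ b, ∃ k, (T b).sum k = (T b0).sum k

/-- `lam n j ≥ 2^(7n+26) * 2^-m1` for `j ≤ n^2 + 1`. -/
theorem lam_ge {n j : ℕ} (hj : j ≤ n ^ 2 + 1) :
    2 ^ (7 * n + 26) * (1 / 2 ^ m1 n) ≤ lam n j := by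
  have h1 : lam n (n ^ 2 + 1) ≤ lam n j := lam_anti n hj
  refine le_trans ?_ h1
  unfold lam m1
  have h : 2 + (7 * n + 26) * (n ^ 2 + 2) = (7 * n + 26) + (2 + (7 * n + 26) * (n ^ 2 + 1)) := by
    ring
  rw [h, pow_add 2 (7 * n + 26), mul_one_div, div_le_div_iff₀ (by positivity) (by positivity)]
  exact le_of_eq (by ring)

theorem lam_le (n j : ℕ) : lam n j ≤ 1 / 4 := by
  refine (lam_anti n (Nat.zero_le j)).trans (le_of_eq ?_)
  unfold lam
  norm_num

end H25.Cake
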