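import Pool.Agent.H25.Cake2.PolZ
import Pool.Agent.H25.Cake2.WinDef
import Pool.Agent.H11.Cake.Polish
import Pool.Agent.H11.Cake.Shares

/-!
# Case Z of the core: some agent does not value the window   (JOB CO-Z)

PROOF.  `n = card G`, `y k = (T b0).sum k`, `B = {k | 0 < y k}`; `B` is nonempty (`star`) and not
everything (`h0`), so `1 ≤ B.card ≤ n - 1` and there is `I ⊆ univ.erase b0` with `I.card = B.card`
(`Finset.exists_subset_card_eq`).  `shares (4n+20)` of `T b0` with `ι = Option G`
(`card = n + 1`), shares `some b ↦ if b ∈ I then 1/(2 I.card) else 0`, `none ↦ 1/2^(n+3)` (sum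
`1/2 + 1/2^(n+3) ≤ 1`; `Fintype.sum_option`), parts `D`, rest `W`.  Frame rule: the position is
`T b0 + K`, `K = ∑ b, P b + ∑ b ∈ univ.erase b0, T b`.  After that the position is
`∑ b, x b + Z + W` with `x b = P b + D (some b) + (if b = b0 then 0 else T b)`, `Z = D none`.
`coreOut_of` with `polZ` (`Q b k = (P b).sum k + (T b).sum k`, `A b k = (D (some b)).sum k`;
`(Z + W) k ≤ y k` as `∑ D + W` has the same sum as `T b0` (`Force.bind_inv` / `Force.inv` before
framing)), `k0` an element of `B`, `j = b0` (`¬ E k0 b0` since `0 < y k0` and `b0 ∉ I`; `E k0 b` means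
`b ∈ I`, then `b ≠ b0`).
Total cost `shCost n (n+1) (4n+20) + polishCost n = coreZCost n`.
-/

namespace H25.Cake

open H85.Cake H11.Cake

variable {G : Type}

theorem caseZ [Fintype G] [DecidableEq G] [Nonempty G] {c b0 : G}
    {P T : G → Multiset (G → ℝ)} (hN : NN (∑ b, (P b + T b))) (hW : Win c b0 P T)
    (h0 : ∃ k, (T b0).sum k = 0) :
    Force CoreOut (coreZCost (Fintype.card G)) (∑ b, (P b + T b)) := by
  classical
  have hNb := nn_sum_iff.1 hN
  have hNT : ∀ b, NN (T b) := fun b => (nn_add.1 (hNb b)).2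
  let B : Finset G := Finset.univ.filter (fun k => 0 < (T b0).sum k)
  have hB : ∀ k, k ∈ B ↔ 0 < (T b0).sum k := by
    intro k
    simp [B]
  obtain ⟨i, b1, b2, hi, -⟩ := hW.star
  have hBpos : 0 < B.card := Finset.card_pos.2 ⟨i, (hB i).2 hi⟩
  obtain ⟨z, hz⟩ := h0
  have hzB : z ∉ B := by
    rw [hB, hz]
    exact lt_irrefl 0
  have hBlt : B.card ≤ ((Finset.univ : Finset G).erase b0).card := by
    have h1 : B.card < (Finset.univ : Finset G).card :=
      Finset.card_lt_card (Finset.ssubset_univ_iff.2 fun h => hzB (h ▸ Finset.mem_univ z))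
    rw [Finset.card_erase_of_mem (Finset.mem_univ b0)]
    omega
  obtain ⟨I, hIsub, hIcard⟩ := Finset.exists_subset_card_eq hBlt
  have hb0 : b0 ∉ I := fun h => (Finset.mem_erase.1 (hIsub h)).1 rfl
  have hIpos : 0 < I.card := hIcard ▸ hBpos
  have hIr : (0 : ℝ) < I.card := by exact_mod_cast hIpos
  let τ : Option G → ℝ := fun o =>
    o.elim (1 / 2 ^ (Fintype.card G + 3)) (fun b => if b ∈ I then 1 / (2 * (I.card : ℝ)) else 0)
  have hτ0 : ∀ o, 0 ≤ τ o := by
    rintro (_ | b)
    · change (0 : ℝ) ≤ 1 / 2 ^ (Fintype.card G + 3)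
      positivity
    · change (0 : ℝ) ≤ if b ∈ I then 1 / (2 * (I.card : ℝ)) else 0
      split_ifs
      · positivity
      · exact le_rfl
  have hτ1 : ∑ o, τ o ≤ 1 := by
    rw [Fintype.sum_option]
    have h1 : ∑ b, τ (some b) = 1 / 2 := by
      change ∑ b, (if b ∈ I then 1 / (2 * (I.card : ℝ)) else 0) = 1 / 2
      rw [Finset.sum_ite_mem, Finset.univ_inter, Finset.sum_const, nsmul_eq_mul]
      field_simp
    have h2 : τ none ≤ 1 / 2 := by
      change (1 : ℝ) / 2 ^ (Fintype.card G + 3) ≤ 1 / 2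
      apply one_div_le_one_div_of_le (by norm_num)
      calc (2 : ℝ) = 2 ^ 1 := by norm_num
        _ ≤ 2 ^ (Fintype.card G + 3) := pow_le_pow_right₀ (by norm_num) (by omega)
    rw [h1]
    linarith
  have hsh := (shares (4 * Fintype.card G + 20) τ hτ0 hτ1 (hNT b0)).inv (hNT b0)
  have e1 : ∑ b, (P b + T b) =
      T b0 + (∑ b, P b + ∑ b ∈ Finset.univ.erase b0, T b) := by
    rw [Finset.sum_add_distrib, ← Finset.add_sum_erase _ T (Finset.mem_univ b0)]
    abel
  have hcost : coreZCost (Fintype.card G) =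
      shCost (Fintype.card G) (Fintype.card (Option G)) (4 * Fintype.card G + 20) +
        polishCost (Fintype.card G) := by
    rw [Fintype.card_option]
    rfl
  rw [hcost]
  rw [e1] at hN ⊢
  refine (hsh.frame _).bind_inv hN ?_
  rintro M' ⟨_, ⟨⟨D, W, rfl, hD, -⟩, hND, hsum⟩, rfl⟩ hN' -
  let x : G → Multiset (G → ℝ) := fun b => P b + D (some b) + (if b = b0 then 0 else T b)
  have e2 : ∑ o, D o + W + (∑ b, P b + ∑ b ∈ Finset.univ.erase b0, T b) =
      ∑ b, x b + D none + W := by
    have h1 : ∑ b, (if b = b0 then 0 else T b) = ∑ b ∈ Finset.univ.erase b0, T b := by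
      rw [← Finset.add_sum_erase _ (fun b => if b = b0 then 0 else T b) (Finset.mem_univ b0),
        if_pos rfl, zero_add]
      exact Finset.sum_congr rfl fun b hb => if_neg (Finset.ne_of_mem_erase hb)
    change _ = ∑ b, (P b + D (some b) + (if b = b0 then 0 else T b)) + D none + W
    rw [Finset.sum_add_distrib, Finset.sum_add_distrib, h1, Fintype.sum_option]
    abel
  rw [e2] at hN' ⊢
  have hx : ∀ b k, (x b).sum k = ((P b).sum k + (T b).sum k) + (D (some b)).sum k -
      (if b = b0 then (T b0).sum k else 0) := by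
    intro b k
    change (P b + D (some b) + (if b = b0 then 0 else T b)).sum k = _
    by_cases hb : b = b0
    · subst hb
      rw [if_pos rfl, if_pos rfl, add_zero, sum_add_apply]
      ring
    · rw [if_neg hb, if_neg hb, sum_add_apply, sum_add_apply]
      ring
  have hZW : ∀ k, (D none).sum k + W.sum k ≤ (T b0).sum k := by
    intro k
    have h1 : (∑ o, D o + W).sum k = (T b0).sum k := by rw [hsum]
    have h2 := le_sum_apply (nn_add.1 hND).1 none k
    rw [sum_add_apply] at h1
    linarith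
  obtain ⟨hp1, hp2⟩ := polZ b0 (fun b k => (P b).sum k + (T b).sum k)
    (fun b k => (D (some b)).sum k) (fun k => (T b0).sum k) (fun k => (D none).sum k)
    (fun k => W.sum k) B I (fun k => nonneg (hNT b0) k) hW.near hB hb0 hIcard.symm hIpos
    (fun b k => hD (some b) k) (fun k => hD none k) hZW
  refine coreOut_of x (D none) W hN' (E := fun k b => 0 < (T b0).sum k → b ∈ I) ?_ i b0
    (fun h => hb0 (h hi)) ?_
  · have h1 : (fun b k => (x b).sum k) = (fun b k => ((P b).sum k + (T b).sum k) +
        (D (some b)).sum k - (if b = b0 then (T b0).sum k else 0)) := by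
      funext b k
      exact hx b k
    rw [h1]
    exact hp1
  · intro b hb
    have h1 := hp2 i hi b (hb hi)
    have hbb : b ≠ b0 := fun h => hb0 (h ▸ hb hi)
    rw [hx, hx, if_neg hbb, if_pos rfl]
    linarith

end H25.Cake
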