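import Pool.Agent.H25.Cake2.WinDef
import Pool.Agent.H25.Cake2.Fam
import Pool.Agent.H11.Cake.Cover

/-!
# Cutting the windows   (JOB CO-WIN)

`n = card G`.  The hypotheses are the conclusions of `corePart` (`v k = M.sum k`).  Let
`Δ k` be the largest `|Q b k - Q b' k|`, `Q b k = (P b).sum k + (C b).sum k` (a finite maximum, attained;
use `Finite.exists_max` on `G × G`); `Δ k ≤ 2 * v k / 2^(m1 + n + 6) = v k / 2^(m1 + n + 5)`.
PROOF.  `cover` for `C b0` with `t k = 2^m1 * Δ k` (`t k ≤ v k / 2^(n+5) ≤ (C b0).sum k`, `0 < t i` for the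
agent of `hne`): `C b0 = T0 + B0`, `t k ≤ T0.sum k`, equality for some `i` with `0 < t i`.
For all `b ≠ b0` `under` for `C b` with `y k = T0.sum k`: `C b = T b + B b`, `(T b).sum k ≤ T0.sum k` and
`B b = 0` or equality for some `k`; if `B b = 0` then `(T b).sum k = (C b).sum k ≥ (C b0).sum k ≥
T0.sum k`, so equality for all `k` (`G` is nonempty).  (Use `famForce` for the family `C b`, with
`Pr b0 := (· = T0 + B0)` trivial: `Force.done`; frame `∑ b, P b`; cost `n * n`; or `Function.update`.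
The total of every `C b` is preserved: `famForce` / `Force.inv`.)
New `P b := P b + B b`.  `Win`: `Q b k` is unchanged, `near`: `Δ k ≤ T0.sum k / 2^m1`; `star`: for the `i`
with `T0.sum i = 2^m1 * Δ i > 0` and a pair attaining `Δ i`; `cut`: `hcut`; `le`, `eq` as above.
-/

namespace H25.Cake

open H85.Cake H11.Cake

variable {G : Type}

theorem windows [Fintype G] [DecidableEq G] (c b0 : G) {P C : G → Multiset (G → ℝ)} {v : G → ℝ}
    (hN : NN (∑ b, (P b + C b)))
    (hcut : ∀ b, (P b).sum c + (C b).sum c = v c / Fintype.card G)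
    (hnear : ∀ b k, |(P b).sum k + (C b).sum k - v k / Fintype.card G| ≤
        v k / 2 ^ (m1 (Fintype.card G) + Fintype.card G + 6))
    (hC : ∀ b k, b ≠ b0 → (C b0).sum k ≤ (C b).sum k)
    (hC0 : ∀ k, v k / 2 ^ (Fintype.card G + 4) ≤ (C b0).sum k)
    (hne : ∃ i b b', (P b).sum i + (C b).sum i ≠ (P b').sum i + (C b').sum i) :
    Force (fun M' => ∃ P' T : G → Multiset (G → ℝ), M' = ∑ b, (P' b + T b) ∧ Win c b0 P' T)
      (Fintype.card G + Fintype.card G * Fintype.card G) (∑ b, (P b + C b)) := by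
  classical
  set n := Fintype.card G with hn
  have hNb : ∀ b, NN (P b + C b) := fun b => nn_sum hN b
  have hNP : ∀ b, NN (P b) := fun b => (nn_add.1 (hNb b)).1
  have hNC : ∀ b, NN (C b) := fun b => (nn_add.1 (hNb b)).2
  have hv : ∀ k, 0 ≤ v k := by
    intro k
    have h1 := (abs_nonneg _).trans (hnear b0 k)
    have h2 : (0:ℝ) < 2 ^ (m1 n + n + 6) := by positivity
    have h3 := mul_nonneg h1 h2.le
    rwa [div_mul_cancel₀ _ h2.ne'] at h3
  have hmax : ∀ k, ∃ p : G × G, ∀ q : G × G,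
      |((P q.1).sum k + (C q.1).sum k) - ((P q.2).sum k + (C q.2).sum k)| ≤
      |((P p.1).sum k + (C p.1).sum k) - ((P p.2).sum k + (C p.2).sum k)| := by
    intro k
    have : Nonempty (G × G) := ⟨(b0, b0)⟩
    exact Finite.exists_max (fun q : G × G =>
      |((P q.1).sum k + (C q.1).sum k) - ((P q.2).sum k + (C q.2).sum k)|)
  choose p hp using hmax
  set Δ : G → ℝ := fun k =>
    |((P (p k).1).sum k + (C (p k).1).sum k) - ((P (p k).2).sum k + (C (p k).2).sum k)| with hΔ
  have hle : ∀ k b b', |((P b).sum k + (C b).sum k) - ((P b').sum k + (C b').sum k)| ≤ Δ k :=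
    fun k b b' => hp k (b, b')
  have hΔle : ∀ k, Δ k ≤ v k / 2 ^ (m1 n + n + 5) := by
    intro k
    have h1 := hnear (p k).1 k
    have h2 := hnear (p k).2 k
    have h3 := abs_sub_le ((P (p k).1).sum k + (C (p k).1).sum k) (v k / n)
      ((P (p k).2).sum k + (C (p k).2).sum k)
    rw [abs_sub_comm (v k / (n : ℝ))] at h3
    have h4 : v k / 2 ^ (m1 n + n + 5) = 2 * (v k / 2 ^ (m1 n + n + 6)) := by
      have h5 : (2:ℝ) ^ (m1 n + n + 6) = 2 ^ (m1 n + n + 5) * 2 := pow_succ _ _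
      have h6 : (2:ℝ) ^ (m1 n + n + 5) ≠ 0 := by positivity
      rw [h5]
      generalize (2:ℝ) ^ (m1 n + n + 5) = x at h6
      field_simp
    rw [h4]
    linarith
  have ht : ∀ k, 2 ^ m1 n * Δ k ≤ (C b0).sum k := by
    intro k
    have h1 : (2:ℝ) ^ m1 n * Δ k ≤ 2 ^ m1 n * (v k / 2 ^ (m1 n + n + 5)) :=
      mul_le_mul_of_nonneg_left (hΔle k) (by positivity)
    have h2 : (2:ℝ) ^ m1 n * (v k / 2 ^ (m1 n + n + 5)) = v k / 2 ^ (n + 4) / 2 := by
      rw [show m1 n + n + 5 = m1 n + ((n + 4) + 1) by ring, pow_add, pow_succ]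
      field_simp
    have h3 : 0 ≤ v k / 2 ^ (n + 4) := div_nonneg (hv k) (by positivity)
    have h4 := hC0 k
    linarith
  have hpos : ∃ k, 0 < 2 ^ m1 n * Δ k := by
    obtain ⟨i, b, b', h⟩ := hne
    refine ⟨i, mul_pos (by positivity) (lt_of_lt_of_le ?_ (hle i b b'))⟩
    exact abs_pos.2 (sub_ne_zero.2 h)
  -- the first window
  have hstart : ∑ b, (P b + C b) = C b0 + (∑ b ∈ Finset.univ.erase b0, C b + ∑ b, P b) := by
    rw [Finset.sum_add_distrib, ← Finset.add_sum_erase _ C (Finset.mem_univ b0), add_comm, add_assoc]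
  rw [hstart]
  refine (((cover (fun k => 2 ^ m1 n * Δ k) (hNC b0) ht hpos).inv (hNC b0)).frame
    (∑ b ∈ Finset.univ.erase b0, C b + ∑ b, P b)).bind ?_
  rintro M' ⟨M₁, ⟨⟨T0, B0, rfl, hT0, i, hi, hTi⟩, hnn, hsum⟩, rfl⟩
  obtain ⟨hnT, hnB⟩ := nn_add.1 hnn
  -- the other windows
  set C1 : G → Multiset (G → ℝ) := Function.update C b0 (T0 + B0) with hC1
  have hC1b0 : C1 b0 = T0 + B0 := by rw [hC1]; exact Function.update_self _ _ _
  have hC1b : ∀ b, b ≠ b0 → C1 b = C b := fun b hb => Function.update_of_ne hb _ _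
  have hC1s : ∀ b, (C1 b).sum = (C b).sum := by
    intro b
    by_cases hb : b = b0
    · subst hb; rw [hC1b0, hsum]
    · rw [hC1b b hb]
  have hNC1 : ∀ b, NN (C1 b) := by
    intro b
    by_cases hb : b = b0
    · subst hb; rw [hC1b0]; exact hnn
    · rw [hC1b b hb]; exact hNC b
  have hpos2 : T0 + B0 + (∑ b ∈ Finset.univ.erase b0, C b + ∑ b, P b) =
      ∑ b, C1 b + ∑ b, P b := by
    rw [← Finset.add_sum_erase _ C1 (Finset.mem_univ b0), hC1b0, ← add_assoc]
    congr 2
    refine Finset.sum_congr rfl fun b hb => ?_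
    rw [hC1b b (Finset.ne_of_mem_erase hb)]
  rw [hpos2]
  have hfam := famForce (C := C1) hNC1 (N := n)
    (Pr := fun b X => (b = b0 → X = T0 + B0) ∧ (b ≠ b0 → ∃ A B : Multiset (G → ℝ), X = A + B ∧
      (∀ k, A.sum k ≤ T0.sum k) ∧ (B = 0 ∨ ∃ i, A.sum i = T0.sum i))) (by
      intro b
      by_cases hb : b = b0
      · subst hb
        exact Force.done ⟨fun _ => hC1b0, fun h => absurd rfl h⟩
      · refine (under (fun k => T0.sum k) (hNC1 b) (fun k => nonneg hnT k)).mono le_rfl ?_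
        rintro X ⟨A, B, h1, h2, h3⟩
        exact ⟨fun h => absurd h hb, fun _ => ⟨A, B, h1, h2, h3⟩⟩)
  refine (hfam.frame (∑ b, P b)).mono le_rfl ?_
  rintro M' ⟨M₂, ⟨C', rfl, hC'⟩, rfl⟩
  have hch : ∀ b, ∃ A B : Multiset (G → ℝ), C' b = A + B ∧ (∀ k, A.sum k ≤ T0.sum k) ∧
      (∃ k, A.sum k = T0.sum k) ∧ (b = b0 → A = T0) := by
    intro b
    obtain ⟨⟨h1, h2⟩, h3, h4⟩ := hC' b
    by_cases hb : b = b0
    · exact ⟨T0, B0, h1 hb, fun _ => le_rfl, ⟨c, rfl⟩, fun _ => rfl⟩
    · obtain ⟨A, B, e, hA, hB⟩ := h2 hb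
      refine ⟨A, B, e, hA, ?_, fun h => absurd h hb⟩
      rcases hB with hB | hB
      · refine ⟨c, le_antisymm (hA c) ?_⟩
        have h5 : A.sum c = (C b).sum c := by
          rw [← hC1s b, ← h4, e, hB, add_zero]
        have h6 := hC b c hb
        have h7 : T0.sum c ≤ (C b0).sum c := by
          rw [← hsum, sum_add_apply]
          have := nonneg hnB c
          linarith
        rw [h5]
        exact h7.trans h6
      · exact hB
  choose T B hTB hTle hTeq hTb0 using hch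
  have hQ : ∀ b k, (P b + B b).sum k + (T b).sum k = (P b).sum k + (C b).sum k := by
    intro b k
    have h1 : (C b).sum k = (T b).sum k + (B b).sum k := by
      rw [← sum_add_apply, ← hTB b, (hC' b).2.2, hC1s b]
    rw [sum_add_apply, h1]
    ring
  have hT0b : T b0 = T0 := hTb0 b0 rfl
  refine ⟨fun b => P b + B b, T, ?_, ?_⟩
  · rw [← Finset.sum_add_distrib]
    refine Finset.sum_congr rfl fun b _ => ?_
    rw [hTB b, add_assoc, add_comm (P b + B b), add_comm (P b)]
  · refine ⟨?_, ?_, ?_, ?_, ?_⟩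
    · intro k b b'
      rw [hQ, hQ, hT0b]
      refine (hle k b b').trans ?_
      rw [le_div_iff₀ (by positivity), mul_comm]
      exact hT0 k
    · refine ⟨i, (p i).1, (p i).2, ?_, ?_⟩
      · rw [hT0b, hTi]; exact hi
      · rw [hQ, hQ, hT0b, hTi]
        rw [eq_div_iff (by positivity), mul_comm]
    · intro b b'
      rw [hQ, hQ, hcut, hcut]
    · intro b k
      rw [hT0b]; exact hTle b k
    · intro b
      rw [hT0b]; exact hTeq b

end H25.Cake
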