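import Pool.Agent.H25.Cake2.Part
import Pool.Agent.H25.Cake2.Win
import Pool.Agent.H25.Cake2.CaseZ
import Pool.Agent.H25.Cake2.CaseA
import Pool.Agent.H25.Cake2.CaseB

/-!
# The core: a significant advantage

PROOF of `core`.  `c = b0` any agent.  `corePart`; if all bundles are equal for all agents: `x k = P k + C k`,
`R = 0`.  Otherwise `windows`; then case Z (some `(T b0).sum k = 0`); otherwise `gap` for the ratios
`(T b).sum k / (T b0).sum k` and `lam`: case A or case B.
-/

namespace H25.Cake

open H85.Cake H11.Cake

variable {G : Type}

theorem core [Fintype G] [DecidableEq G] (h2 : 2 ≤ Fintype.card G) {M : Multiset (G → ℝ)}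
    (hM : NN M) : Force H11.Cake.CoreOut (coreCost (Fintype.card G)) M := by
  classical
  haveI : Nonempty G := Fintype.card_pos_iff.1 (by omega)
  obtain ⟨c⟩ : Nonempty G := inferInstance
  have key : Force H11.Cake.CoreOut (corePartCost (Fintype.card G) + ((Fintype.card G + Fintype.card G * Fintype.card G) +
      (coreZCost (Fintype.card G) + coreACost (Fintype.card G) + coreBCost (Fintype.card G)))) M := by
    refine (corePart c c hM).bind_inv hM ?_
    rintro M₁ ⟨P, C, rfl, hcut, hnear, hC, hC0⟩ hN hS
    by_cases hne : ∃ i b b', (P b).sum i + (C b).sum i ≠ (P b').sum i + (C b').sum i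
    · refine (windows c c (v := fun k => M.sum k) hN hcut hnear hC hC0 hne).bind_inv hN ?_
      rintro M₂ ⟨P', T, rfl, hW⟩ hN' hS'
      by_cases h0 : ∃ k, (T c).sum k = 0
      · exact (caseZ hN' hW h0).mono (by omega) (fun _ h => h)
      · push Not at h0
        have hTc : NN (T c) := (nn_add.1 (nn_sum hN' c)).2
        have hy : ∀ k, 0 < (T c).sum k := fun k =>
          lt_of_le_of_ne (nonneg hTc k) (Ne.symm (h0 k))
        obtain ⟨j, hj, hgap⟩ := gap (ι := G × G) (fun p => (T p.2).sum p.1 / (T c).sum p.1)
          (lam (Fintype.card G)) (fun a b h => lam_anti _ h)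
        rw [Fintype.card_prod, ← sq] at hj
        have hwin : ∀ k b, (T b).sum k ≤ lam (Fintype.card G) (j + 1) * (T c).sum k ∨
            lam (Fintype.card G) j * (T c).sum k < (T b).sum k := by
          intro k b
          rcases hgap (k, b) with h | h
          · left
            exact (div_le_iff₀ (hy k)).1 h
          · right
            exact (lt_div_iff₀ (hy k)).1 h
        by_cases hg : ∃ g i, (T g).sum i ≤ lam (Fintype.card G) (j + 1) * (T c).sum i
        · exact (caseA hN' hW hy j hj hwin hg).mono (by omega) (fun _ h => h)
        · push Not at hg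
          have hbig : ∀ k b, lam (Fintype.card G) j * (T c).sum k < (T b).sum k := by
            intro k b
            rcases hwin k b with h | h
            · exact absurd h (not_le.2 (hg b k))
            · exact h
          exact (caseB hN' hW hy j hj hbig).mono (by omega) (fun _ h => h)
    · push Not at hne
      obtain ⟨k0, l0, hkl⟩ : ∃ k0 l0 : G, k0 ≠ l0 := by
        haveI : Nontrivial G := Fintype.one_lt_card_iff_nontrivial.1 (by omega)
        exact exists_pair_ne G
      refine .done ⟨fun k => P k + C k, 0, k0, l0, by simp, ?_, hkl, ?_⟩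
      · intro k l
        rw [sum_add_apply, sum_add_apply]
        exact (hne k l k).le
      · rw [sum_add_apply, sum_add_apply, hne k0 k0 l0, sub_self]
        simp
  exact key.mono (by unfold coreCost; omega) (fun _ h => h)

end H25.Cake
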