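import Pool.Agent.H25.Cake2.Core
import Pool.Agent.H11.Cake.Final

/-!
# The core hypothesis of `H11/Cake`
-/

namespace H25.Cake

theorem coreHyp : H11.Cake.CoreHyp := by
  intro G _ _ _ h2 M hM
  exact core h2 hM

end H25.Cake
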