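import Pool.Agent.H85.Cake.Force
import Pool.Agent.H85.Cake.Halve
import Pool.Agent.H85.Cake.CutEq
import Pool.Agent.H85.Cake.Defs

/-!
# Interfaces (polynomial envy-free cake cutting, MP_e48dc1_lc)

`FracsS D`: near-exact division of any multiset of atoms, relative precision `2^-e`, cost
`D e (card ι) (card G)`.
`PolishS κ C`: the POLISH theorem with `eps = 2^-κ(n)` and cost `C n`.
`CoreS q C`: exactly envy-free parts, a residual, and one pair with advantage `≥ 2^-q(n) * residual`.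
-/

namespace H25.Cake

open H85.Cake

/-- Near-exact division: shares `x j ≥ 0`, `∑ x j ≤ 1`; the rest `B` is near-exact too. -/
def FracsS (D : ℕ → ℕ → ℕ → ℕ) : Prop :=
  ∀ (G : Type) [Fintype G] [DecidableEq G] (ι : Type) [Fintype ι] [DecidableEq ι] (e : ℕ)
    (x : ι → ℝ), (∀ j, 0 ≤ x j) → ∑ j, x j ≤ 1 → ∀ M : Multiset (G → ℝ), NN M →
    Force (fun M' => ∃ (A : ι → Multiset (G → ℝ)) (B : Multiset (G → ℝ)), M' = ∑ j, A j + B ∧
      (∀ j k, |(A j).sum k - x j * M.sum k| ≤ M.sum k / 2 ^ e) ∧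
      (∀ k, |B.sum k - (1 - ∑ j, x j) * M.sum k| ≤ M.sum k / 2 ^ e))
      (D e (Fintype.card ι) (Fintype.card G)) M

/-- POLISH.  `F b k`: value of bundle `b` for agent `k`; `Z`: the reserve; `E k b`: the near-tie
graph; `σ`: a perfect matching in `E`. -/
def PolishS (κ C : ℕ → ℕ) : Prop :=
  ∀ (G : Type) [Fintype G] [DecidableEq G] (E : G → G → Prop) (σ : Equiv.Perm G),
    (∀ k, E k (σ k)) → ∀ (F : G → G → ℝ) (Z : Multiset (G → ℝ)), NN Z →
    (∀ k b b', ¬ E k b → E k b' → F b k + Z.sum k ≤ F b' k) →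
    (∀ k b b', E k b → E k b' → F b k - F b' k ≤ Z.sum k / 2 ^ κ (Fintype.card G)) →
    Force (fun M' => ∃ (μ : Equiv.Perm G) (Y : G → Multiset (G → ℝ)) (R : Multiset (G → ℝ)),
      M' = ∑ b, Y b + R ∧ (∀ k, E k (μ k)) ∧
      ∀ k b, F b k + (Y b).sum k ≤ F (μ k) k + (Y (μ k)).sum k) (C (Fintype.card G)) Z

/-- The result of the core. -/
def CoreOut {G : Type} [Fintype G] (q : ℕ) (M' : Multiset (G → ℝ)) : Prop :=
  ∃ (x : G → Multiset (G → ℝ)) (R' : Multiset (G → ℝ)), M' = ∑ k, x k + R' ∧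
    (∀ k l, (x l).sum k ≤ (x k).sum k) ∧
    ∃ k l, k ≠ l ∧ R'.sum k ≤ 2 ^ q * ((x k).sum k - (x l).sum k)

/-- CORE. -/
def CoreS (q C : ℕ → ℕ) : Prop :=
  ∀ (G : Type) [Fintype G] [DecidableEq G], 2 ≤ Fintype.card G → ∀ M : Multiset (G → ℝ), NN M →
    Force (CoreOut (q (Fintype.card G))) (C (Fintype.card G)) M

/-- SHRINK: exactly envy-free parts, the residual is `≤ 2^-t` for all agents. -/
def ShrinkS (C : ℕ → ℕ → ℕ) : Prop :=
  ∀ (G : Type) [Fintype G] [DecidableEq G] (t : ℕ) (M : Multiset (G → ℝ)), NN M →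
    Force (fun M' => ∃ (x : G → Multiset (G → ℝ)) (R' : Multiset (G → ℝ)), M' = ∑ k, x k + R' ∧
      (∀ k l, (x l).sum k ≤ (x k).sum k) ∧ ∀ k, R'.sum k ≤ M.sum k / 2 ^ t)
      (C t (Fintype.card G)) M

end H25.Cake
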