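import Pool.Agent.H25.Cake2.WinDef

/-!
# Case B of the core: the offline market, definitions
-/

namespace H25.Cake

open H85.Cake H11.Cake

variable {G : Type}

/-- Slack of the pair `(k, b)`: `V b k` values of the bundles, `u k` value of the pool, `τ b` the share
of the pool for the bundle `b`, agent `k` is matched with `μ k`. -/
def slk (V : G → G → ℝ) (u : G → ℝ) (μ : Equiv.Perm G) (τ : G → ℝ) (k b : G) : ℝ :=
  (V (μ k) k + τ (μ k) * u k) - (V b k + τ b * u k)

/-- A solution of the quasi-linear market. -/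
structure Market [Fintype G] (V : G → G → ℝ) (u : G → ℝ) (μ : Equiv.Perm G) (τ : G → ℝ) :
    Prop where
  pos : ∀ b, xi (Fintype.card G) 0 ≤ τ b
  one : ∑ b, τ b = 1
  opt : ∀ k b, 0 ≤ slk V u μ τ k b

end H25.Cake
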