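import Pool.Agent.H25.Cake2.MarketDef
import Pool.Agent.H11.Cake.Dual

/-!
# Case B of the core: the market has a solution   (JOB CO-MKT)

`Q b k`: values of the bundles of the partition, `X b k` the parts taken out (pool),
`u k = ∑ b, X b k`.  `n = card G`, `λ = lam n j`.
PROOF.  `u k > 0` (`hXl`: `X b k ≥ λ/4 * y k > 0`) and `u k ≤ n * y k`.
`W k b = (Q b k - X b k) / u k`.  `dual` (file `H11/Cake/Dual.lean`) for `E = fun _ _ => True` and any bound
`D` for `|W k b - W k b'|` (e.g. a finite sum/maximum of all these numbers) gives `μ, τ', F` with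
`W k b + τ' b ≤ F k`, equality for `b = μ k`.  Put `τ b = τ' b + (1 - ∑ τ') / n`: `∑ τ = 1`, and
`W k b + τ b ≤ W k (μ k) + τ (μ k)` (the same constant is added on both sides); multiply by `u k`: `opt`.
LOWER BOUND: let `k = μ⁻¹ b`.  `F' := W k b + τ b` (`b = μ k`) is `≥ W k b' + τ b'` for all `b'`, so
`n * F' ≥ ∑ b', W k b' + 1 = (∑ b', Q b' k - u k) / u k + 1 = (∑ b', Q b' k) / u k ≥
n * (Q b k - y k / 2^m1) / u k` (`hnear`).  So `τ b = F' - (Q b k - X b k) / u k ≥
(X b k - y k / 2^m1) / u k ≥ (λ/4 - 1/2^m1) y k / (n y k) ≥ λ / (8 n) ≥ xi n 0 = 1 / 2^(m1 + n + 7)`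
(`lam_ge`: `λ ≥ 2^(7n+26) / 2^m1`; `n ≤ 2^n`).
-/

namespace H25.Cake

open H85.Cake H11.Cake

variable {G : Type}

theorem market_exists [Fintype G] [DecidableEq G] [Nonempty G] (Q X : G → G → ℝ) (y : G → ℝ)
    (j : ℕ) (hj : j ≤ Fintype.card G ^ 2) (hy : ∀ k, 0 < y k)
    (hnear : ∀ k b b', |Q b k - Q b' k| ≤ y k / 2 ^ m1 (Fintype.card G))
    (hX : ∀ b k, X b k ≤ y k) (hXl : ∀ b k, lam (Fintype.card G) j / 4 * y k ≤ X b k) :
    ∃ (μ : Equiv.Perm G) (τ : G → ℝ),
      Market (fun b k => Q b k - X b k) (fun k => ∑ b, X b k) μ τ := by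
  classical
  obtain ⟨n, hn⟩ : ∃ n, n = Fintype.card G := ⟨_, rfl⟩
  have hn1 : 1 ≤ n := by rw [hn]; exact Fintype.card_pos
  rw [← hn] at hj hnear hXl
  obtain ⟨N, hN⟩ : ∃ N : ℝ, N = (n : ℝ) := ⟨_, rfl⟩
  have hNc : (Fintype.card G : ℝ) = N := by rw [← hn, hN]
  have hN1 : (1 : ℝ) ≤ N := by rw [hN]; exact_mod_cast hn1
  have hN0 : (0 : ℝ) < N := by linarith
  have hN2 : N ≤ 2 ^ n := by rw [hN]; exact le_two_pow n
  obtain ⟨δ, hδ⟩ : ∃ δ : ℝ, δ = 1 / 2 ^ m1 n := ⟨_, rfl⟩
  have hδ0 : 0 < δ := by rw [hδ]; positivity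
  have hlam : 8 * δ ≤ lam n j := by
    have h1 := lam_ge (n := n) (j := j) (by omega)
    rw [← hδ] at h1
    have h2 : (8 : ℝ) ≤ 2 ^ (7 * n + 26) := by
      calc (8 : ℝ) = 2 ^ 3 := by norm_num
        _ ≤ 2 ^ (7 * n + 26) := pow_le_pow_right₀ (by norm_num) (by omega)
    exact (mul_le_mul_of_nonneg_right h2 hδ0.le).trans h1
  have hXpos : ∀ b k, 0 < X b k := by
    intro b k
    have h1 := hXl b k
    have h2 : 0 < lam n j / 4 * y k := mul_pos (by linarith) (hy k)
    linarith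
  obtain ⟨u, hu⟩ : ∃ u : G → ℝ, u = fun k => ∑ b, X b k := ⟨_, rfl⟩
  have hu' : ∀ k, u k = ∑ b, X b k := fun k => by rw [hu]
  rw [← hu]
  have hu0 : ∀ k, 0 < u k := by
    intro k
    rw [hu' k]
    exact Finset.sum_pos (fun b _ => hXpos b k) Finset.univ_nonempty
  have huN : ∀ k, u k ≤ N * y k := by
    intro k
    rw [hu' k]
    calc ∑ b, X b k ≤ ∑ _b : G, y k := Finset.sum_le_sum (fun b _ => hX b k)
      _ = N * y k := by rw [Finset.sum_const, Finset.card_univ, nsmul_eq_mul, hNc]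
  obtain ⟨W, hW⟩ : ∃ W : G → G → ℝ, W = fun k b => (Q b k - X b k) / u k := ⟨_, rfl⟩
  have hW' : ∀ k b, W k b = (Q b k - X b k) / u k := fun k b => by rw [hW]
  have hWu : ∀ k b, W k b * u k = Q b k - X b k := by
    intro k b
    rw [hW', div_mul_cancel₀ _ (hu0 k).ne']
  obtain ⟨μ, τ', F, -, -, hF1, hF2⟩ := dual (fun _ _ => True) W
    (∑ x : G × G × G, |W x.1 x.2.1 - W x.1 x.2.2|) ⟨1, fun _ => trivial⟩
    (fun k b b' _ _ => Finset.single_le_sum (f := fun x : G × G × G => |W x.1 x.2.1 - W x.1 x.2.2|)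
      (fun _ _ => abs_nonneg _) (Finset.mem_univ (k, b, b')))
  obtain ⟨cst, hcst⟩ : ∃ cst : ℝ, cst = (1 - ∑ b, τ' b) / N := ⟨_, rfl⟩
  have hone : ∑ b, (τ' b + cst) = 1 := by
    rw [Finset.sum_add_distrib, Finset.sum_const, Finset.card_univ, nsmul_eq_mul, hNc, hcst]
    field_simp
    ring
  refine ⟨μ, fun b => τ' b + cst, ⟨?_, hone, ?_⟩⟩
  · intro b
    rw [← hn]
    have hk := hF2 (μ.symm b)
    obtain ⟨k, hkk⟩ : ∃ k, k = μ.symm b := ⟨_, rfl⟩
    have hμk : μ k = b := by rw [hkk]; simp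
    rw [← hkk, hμk] at hk
    have h1 : ∀ b', W k b' + (τ' b' + cst) ≤ F k + cst := by
      intro b'
      have := hF1 k b' trivial
      linarith
    have h2 : ∑ b', (W k b' + (τ' b' + cst)) ≤ N * (F k + cst) := by
      calc ∑ b', (W k b' + (τ' b' + cst)) ≤ ∑ _b' : G, (F k + cst) :=
            Finset.sum_le_sum (fun b' _ => h1 b')
        _ = N * (F k + cst) := by rw [Finset.sum_const, Finset.card_univ, nsmul_eq_mul, hNc]
    rw [Finset.sum_add_distrib, hone] at h2
    have h3 : (∑ b', W k b') * u k = ∑ b', Q b' k - u k := by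
      rw [Finset.sum_mul]
      simp only [hWu]
      rw [Finset.sum_sub_distrib, ← hu' k]
    have h4 : N * (Q b k - δ * y k) ≤ ∑ b', Q b' k := by
      calc N * (Q b k - δ * y k) = ∑ _b' : G, (Q b k - δ * y k) := by
            rw [Finset.sum_const, Finset.card_univ, nsmul_eq_mul, hNc]
        _ ≤ ∑ b', Q b' k := by
            apply Finset.sum_le_sum
            intro b' _
            have h5 := (abs_le.1 (hnear k b b')).2
            have h6 : y k / 2 ^ m1 n = δ * y k := by rw [hδ]; ring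
            rw [h6] at h5
            linarith
    -- multiply by u k
    have h5 : (∑ b', W k b' + 1) * u k ≤ N * (F k + cst) * u k :=
      mul_le_mul_of_nonneg_right h2 (hu0 k).le
    have h6 : (∑ b', W k b' + 1) * u k = ∑ b', Q b' k := by
      rw [add_mul, one_mul, h3]
      ring
    rw [h6] at h5
    have h7 : Q b k - δ * y k ≤ (F k + cst) * u k := by
      have h8 : N * (Q b k - δ * y k) ≤ N * ((F k + cst) * u k) := by linarith
      exact le_of_mul_le_mul_left h8 hN0
    have h9 : (τ' b + cst) * u k = (F k + cst) * u k - (Q b k - X b k) := by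
      rw [← hWu k b, ← hk]
      ring
    have h10 : δ * y k ≤ (τ' b + cst) * u k := by
      have h11 := hXl b k
      have h12 : 2 * δ * y k ≤ lam n j / 4 * y k :=
        mul_le_mul_of_nonneg_right (by linarith) (hy k).le
      linarith
    have h13 : 0 < τ' b + cst := by
      by_contra hcon
      have h14 : (τ' b + cst) * u k ≤ 0 :=
        mul_nonpos_of_nonpos_of_nonneg (not_lt.1 hcon) (hu0 k).le
      have h15 : 0 < δ * y k := mul_pos hδ0 (hy k)
      linarith
    have h14 : (τ' b + cst) * u k ≤ (τ' b + cst) * (N * y k) :=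
      mul_le_mul_of_nonneg_left (huN k) h13.le
    have h15 : δ ≤ (τ' b + cst) * N := by
      have h16 : δ * y k ≤ ((τ' b + cst) * N) * y k := by linarith
      exact le_of_mul_le_mul_right h16 (hy k)
    have h17 : δ ≤ (τ' b + cst) * 2 ^ n :=
      h15.trans (mul_le_mul_of_nonneg_left hN2 h13.le)
    have h18 : δ / 2 ^ n ≤ τ' b + cst := by
      rw [div_le_iff₀ (by positivity)]
      exact h17
    refine le_trans ?_ h18
    unfold xi
    rw [hδ, div_div, ← pow_add]
    apply one_div_le_one_div_of_le (by positivity)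
    apply pow_le_pow_right₀ (by norm_num)
    omega
  · intro k b
    unfold slk
    have h1 := hF1 k b trivial
    have h2 := hF2 k
    have h3 := hWu k b
    have h4 := hWu k (μ k)
    have h5 : (Q (μ k) k - X (μ k) k + (τ' (μ k) + cst) * u k) -
        (Q b k - X b k + (τ' b + cst) * u k) = (F k - (W k b + τ' b)) * u k := by
      rw [← h3, ← h4, ← h2]
      ring
    rw [h5]
    exact mul_nonneg (by linarith) (hu0 k).le


end H25.Cake
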