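import Pool.Agent.H25.Cake2.Fam
import Pool.Agent.H11.Cake.Shares

/-!
# The first partition of the core   (JOB CO-PART)

`n = card G`, `s = 1 / 2^(m1 n + n + 8)` (the pool), `e = 1 / 2^(prec0 n) = 1 / 2^(m1 n + 3n + 10)`.
PROOF.  `shares (prec0 n)` of `M` with `ι = G ⊕ G` (`card = n + n = 2 * n`) and the shares
`inl b ↦ χ b` (`χ b0 = 1/(8n)`, `χ b = 1/(4n)` for `b ≠ b0`; part `C b`),
`inr b ↦ (1 - s)/n - χ b` (`≥ 0`; part `D b`); their sum is `1 - s`; the rest is `W` (pool), with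
`|W.sum k - s * M.sum k| ≤ e * M.sum k`.  Then `cutParts c r` for `W` (frame the rest;
`Force.bind_inv`, all parts nonnegative, total preserved) with
`r b = M.sum c / n - (C b).sum c - (D b).sum c`; `r b ≥ (s/n - 2 e) * M.sum c ≥ 0` because
`2 * n * e ≤ s` (`n ≤ 2^n`, `le_two_pow`), and `∑ r b = M.sum c - ∑ (C b + D b).sum c = W.sum c`.
This gives `T b`; put `P b = D b + T b`.
* `(P b).sum c + (C b).sum c = M.sum c / n`: choice of `r b`.
* `|(P b + C b).sum k - M.sum k / n| ≤ (s/n + 2 e + s + e) * M.sum k ≤ M.sum k / 2^(m1 n + n + 6)`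
  (`(T b).sum k ≤ W.sum k ≤ (s + e) M.sum k`, `≥ 0`; `2 s + 3 e ≤ 4 s`).
* `(C b0).sum k ≤ (1/(8n) + e) M.sum k ≤ (1/(4n) - e) M.sum k ≤ (C b).sum k` (`2 e ≤ 1/(8n)`).
* `(C b0).sum k ≥ (1/(8n) - e) M.sum k ≥ M.sum k / 2^(n+4)` (`1/(8n) ≥ 2/2^(n+4)`, `e ≤ 1/2^(n+4)`).
-/

namespace H25.Cake

open H85.Cake H11.Cake

variable {G : Type}

private theorem part_pow_cmp {c : ℝ} {s t u : ℕ} (hc : c ≤ 2 ^ u) (h : s + u ≤ t) :
    c * (1 / 2 ^ t) ≤ 1 / 2 ^ s := by
  have h1 : (2:ℝ) ^ (s + u) ≤ 2 ^ t := pow_le_pow_right₀ (by norm_num) h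
  rw [mul_one_div, div_le_div_iff₀ (by positivity) (by positivity), one_mul]
  calc c * 2 ^ s ≤ 2 ^ u * 2 ^ s := mul_le_mul_of_nonneg_right hc (by positivity)
    _ = 2 ^ (s + u) := by rw [← pow_add, add_comm]
    _ ≤ 2 ^ t := h1

theorem corePart [Fintype G] [DecidableEq G] (c b0 : G) {M : Multiset (G → ℝ)} (hM : NN M) :
    Force (fun M' => ∃ P C : G → Multiset (G → ℝ), M' = ∑ b, (P b + C b) ∧
      (∀ b, (P b).sum c + (C b).sum c = M.sum c / Fintype.card G) ∧
      (∀ b k, |(P b).sum k + (C b).sum k - M.sum k / Fintype.card G| ≤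
        M.sum k / 2 ^ (m1 (Fintype.card G) + Fintype.card G + 6)) ∧
      (∀ b k, b ≠ b0 → (C b0).sum k ≤ (C b).sum k) ∧
      ∀ k, M.sum k / 2 ^ (Fintype.card G + 4) ≤ (C b0).sum k)
      (corePartCost (Fintype.card G)) M := by
  classical
  obtain ⟨n, hn⟩ : ∃ n, n = Fintype.card G := ⟨_, rfl⟩
  have hn1 : 1 ≤ n := by
    rw [hn]
    exact Fintype.card_pos_iff.2 ⟨b0⟩
  obtain ⟨N, hN⟩ : ∃ N : ℝ, N = (n : ℝ) := ⟨_, rfl⟩
  have hN1 : (1 : ℝ) ≤ N := by rw [hN]; exact_mod_cast hn1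
  have hN0 : (0 : ℝ) < N := by linarith
  have hN2 : N ≤ 2 ^ n := by rw [hN]; exact le_two_pow n
  have hNc : (Fintype.card G : ℝ) = N := by rw [← hn, hN]
  obtain ⟨s, hs⟩ : ∃ s : ℝ, s = 1 / 2 ^ (m1 n + n + 8) := ⟨_, rfl⟩
  obtain ⟨e, he⟩ : ∃ e : ℝ, e = 1 / 2 ^ (m1 n + 3 * n + 10) := ⟨_, rfl⟩
  have hs0 : 0 < s := by rw [hs]; positivity
  have he0 : 0 < e := by rw [he]; positivity
  have hNp : ∀ j : ℕ, (2 : ℝ) ^ j * N ≤ 2 ^ (n + j) := by
    intro j
    rw [pow_add, mul_comm]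
    exact mul_le_mul_of_nonneg_right hN2 (by positivity)
  have hE1 : 2 * N * e ≤ s := by
    rw [he, hs]
    refine part_pow_cmp (u := n + 1) ?_ (by omega)
    have := hNp 1
    rwa [pow_one] at this
  have hes : e ≤ s := by
    have := part_pow_cmp (c := 1) (s := m1 n + n + 8) (t := m1 n + 3 * n + 10) (u := 0)
      (by norm_num) (by omega)
    rw [he, hs]
    linarith
  have hE2 : 16 * N * e ≤ 1 := by
    have h1 := part_pow_cmp (c := 16 * N) (s := 0) (t := m1 n + 3 * n + 10) (u := n + 4)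
      (by have := hNp 4; norm_num at this; exact this) (by omega)
    rw [he]
    simpa using h1
  have hE3 : e ≤ 1 / 2 ^ (n + 4) := by
    have := part_pow_cmp (c := 1) (s := n + 4) (t := m1 n + 3 * n + 10) (u := 0)
      (by norm_num) (by omega)
    rw [he]
    linarith
  have hs1 : s ≤ 1 / 256 := by
    have := part_pow_cmp (c := 1) (s := 8) (t := m1 n + n + 8) (u := 0)
      (by norm_num) (by omega)
    rw [hs]
    norm_num at this ⊢
    exact this
  have hs4 : 1 / 2 ^ (m1 n + n + 6) = 4 * s := by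
    have h1 : (2 : ℝ) ^ (m1 n + n + 8) = 2 ^ (m1 n + n + 6) * 4 := by
      rw [show m1 n + n + 8 = (m1 n + n + 6) + 2 by ring, pow_add 2 (m1 n + n + 6) 2]
      norm_num
    have h2 : (2 : ℝ) ^ (m1 n + n + 6) ≠ 0 := by positivity
    rw [hs, h1]
    generalize (2 : ℝ) ^ (m1 n + n + 6) = x at h2
    field_simp
  have h8 : 2 * (1 / 2 ^ (n + 4)) ≤ 1 / (8 * N) := by
    have h16 : 16 * N ≤ 2 ^ (n + 4) := by have := hNp 4; norm_num at this; exact this
    rw [mul_one_div, div_le_div_iff₀ (by positivity) (by positivity)]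
    linarith
  -- the shares
  let χ : G → ℝ := fun b => if b = b0 then 1 / (8 * N) else 1 / (4 * N)
  have hχ0 : ∀ b, 0 ≤ χ b := by
    intro b
    simp only [χ]
    split_ifs <;> positivity
  have hχ1 : ∀ b, χ b ≤ 1 / (4 * N) := by
    intro b
    simp only [χ]
    split_ifs
    · apply one_div_le_one_div_of_le (by positivity)
      linarith
    · exact le_rfl
  have hχb0 : χ b0 = 1 / (8 * N) := by simp only [χ, if_true]
  have hχb : ∀ b, b ≠ b0 → χ b = 1 / (4 * N) := by
    intro b hb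
    simp only [χ, if_neg hb]
  clear_value χ
  have hquart : 1 / (4 * N) ≤ (1 - s) / N := by
    rw [div_le_div_iff₀ (by positivity) hN0]
    nlinarith
  let τ : G ⊕ G → ℝ := Sum.elim χ (fun b => (1 - s) / N - χ b)
  have hτsum : ∑ i, τ i = 1 - s := by
    rw [Fintype.sum_sum_type]
    simp only [τ, Sum.elim_inl, Sum.elim_inr]
    rw [← Finset.sum_add_distrib]
    have h1 : ∀ b : G, χ b + ((1 - s) / N - χ b) = (1 - s) / N := fun b => by ring
    simp only [h1, Finset.sum_const, Finset.card_univ, nsmul_eq_mul, hNc]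
    field_simp
  have hτ0 : ∀ i, 0 ≤ τ i := by
    rintro (b | b)
    · exact hχ0 b
    · simp only [τ, Sum.elim_inr]
      linarith [hχ1 b]
  have hsh := shares (prec0 n) τ hτ0 (by rw [hτsum]; linarith) hM
  have hcost : shCost (Fintype.card G) (Fintype.card (G ⊕ G)) (prec0 n) + Fintype.card G ≤
      corePartCost (Fintype.card G) := by
    rw [Fintype.card_sum, ← hn]
    unfold corePartCost
    rw [two_mul]
  refine (hsh.bind_inv hM ?_).mono hcost (fun _ h => h)
  rintro M1 ⟨D, W, rfl, hD, hW⟩ hNN hsum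
  rw [hτsum] at hW
  have hτl : ∀ b, τ (Sum.inl b) = χ b := fun b => rfl
  have hτr : ∀ b, τ (Sum.inr b) = (1 - s) / N - χ b := fun b => rfl
  clear_value τ
  have hprec : ∀ x : ℝ, x / 2 ^ prec0 n = e * x := by
    intro x
    rw [he]
    unfold prec0
    ring
  have hNNW : NN W := (H11.Cake.nn_add.1 hNN).2
  have hNND : ∀ i, NN (D i) := fun i => H11.Cake.nn_sum (H11.Cake.nn_add.1 hNN).1 i
  have hv : ∀ k, 0 ≤ M.sum k := fun k => H11.Cake.nonneg hM k
  have htot : ∀ k, ∑ b, ((D (Sum.inl b)).sum k + (D (Sum.inr b)).sum k) + W.sum k = M.sum k := by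
    intro k
    rw [← hsum, sum_add_apply, sum_sum_apply, Fintype.sum_sum_type, Finset.sum_add_distrib]
  have hDl : ∀ b k, |(D (Sum.inl b)).sum k - χ b * M.sum k| ≤ e * M.sum k := by
    intro b k
    have := hD (Sum.inl b) k
    rwa [hτl, hprec] at this
  have hDr : ∀ b k, |(D (Sum.inr b)).sum k - ((1 - s) / N - χ b) * M.sum k| ≤ e * M.sum k := by
    intro b k
    have := hD (Sum.inr b) k
    rwa [hτr, hprec] at this
  have hWk : ∀ k, |W.sum k - s * M.sum k| ≤ e * M.sum k := by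
    intro k
    have := hW k
    rwa [hprec, sub_sub_cancel] at this
  have hDD : ∀ b k, |(D (Sum.inl b)).sum k + (D (Sum.inr b)).sum k - (1 - s) / N * M.sum k| ≤
      2 * e * M.sum k := by
    intro b k
    have h1 := abs_le.1 (hDl b k)
    have h2 := abs_le.1 (hDr b k)
    rw [abs_le]
    constructor
    · linarith [h1.1, h2.1]
    · linarith [h1.2, h2.2]
  -- the exact parts of the pool
  have hr0 : ∀ b, 0 ≤ M.sum c / N - (D (Sum.inl b)).sum c - (D (Sum.inr b)).sum c := by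
    intro b
    have h1 := (abs_le.1 (hDD b c)).2
    have h2 : 2 * e * M.sum c ≤ s / N * M.sum c := by
      apply mul_le_mul_of_nonneg_right _ (hv c)
      rw [le_div_iff₀ hN0]
      linarith
    have h3 : M.sum c / N = (1 - s) / N * M.sum c + s / N * M.sum c := by
      field_simp
      ring
    linarith
  have hrS : ∑ b, (M.sum c / N - (D (Sum.inl b)).sum c - (D (Sum.inr b)).sum c) = W.sum c := by
    have h1 := htot c
    have h2 : ∑ _b : G, M.sum c / N = M.sum c := by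
      rw [Finset.sum_const, Finset.card_univ, nsmul_eq_mul, hNc]
      field_simp
    rw [Finset.sum_sub_distrib, Finset.sum_sub_distrib, h2]
    rw [Finset.sum_add_distrib] at h1
    linarith
  have hcut := (cutParts c (fun b => M.sum c / N - (D (Sum.inl b)).sum c -
    (D (Sum.inr b)).sum c) hr0 hNNW hrS).inv hNNW
  rw [add_comm (∑ i, D i) W]
  refine (hcut.frame (∑ i, D i)).mono le_rfl ?_
  rintro M2 ⟨M3, ⟨⟨T, rfl, hT⟩, hNT, hsT⟩, rfl⟩
  have hNT' : ∀ b, NN (T b) := fun b => H11.Cake.nn_sum hNT b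
  have hTle : ∀ b k, (T b).sum k ≤ W.sum k := by
    intro b k
    rw [← hsT]
    exact le_sum_apply hNT b k
  have hT0 : ∀ b k, 0 ≤ (T b).sum k := fun b k => H11.Cake.nonneg (hNT' b) k
  refine ⟨fun b => D (Sum.inr b) + T b, fun b => D (Sum.inl b), ?_, ?_, ?_, ?_, ?_⟩
  · rw [Fintype.sum_sum_type, Finset.sum_add_distrib, Finset.sum_add_distrib]
    abel
  · intro b
    rw [sum_add_apply, hT, hNc]
    ring
  · intro b k
    rw [sum_add_apply, hNc, ← hn]
    have h1 := abs_le.1 (hDD b k)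
    have h2 := abs_le.1 (hWk k)
    have h3 := hTle b k
    have h4 := hT0 b k
    have h5 : M.sum k / N = (1 - s) / N * M.sum k + s / N * M.sum k := by
      field_simp
      ring
    have h6 : M.sum k / 2 ^ (m1 n + n + 6) = 4 * s * M.sum k := by
      rw [← hs4]
      ring
    have h7 : s / N * M.sum k ≤ s * M.sum k := by
      apply mul_le_mul_of_nonneg_right _ (hv k)
      exact div_le_self hs0.le hN1
    have h8' : 0 ≤ s / N * M.sum k := mul_nonneg (by positivity) (hv k)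
    have h9 : e * M.sum k ≤ s * M.sum k := mul_le_mul_of_nonneg_right hes (hv k)
    rw [h6, abs_le]
    constructor
    · linarith [h1.1]
    · linarith [h1.2, h2.2]
  · intro b k hb
    have h1 := abs_le.1 (hDl b0 k)
    have h2 := abs_le.1 (hDl b k)
    rw [hχb0] at h1
    rw [hχb b hb] at h2
    have h3 : 1 / (8 * N) * M.sum k + e * M.sum k + e * M.sum k ≤ 1 / (4 * N) * M.sum k := by
      have h4 : 1 / (8 * N) + e + e ≤ 1 / (4 * N) := by
        have h5 : 2 * e ≤ 1 / (8 * N) := by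
          rw [le_div_iff₀ (by positivity)]
          linarith
        have h6 : 1 / (4 * N) = 1 / (8 * N) + 1 / (8 * N) := by
          field_simp
          norm_num
        linarith
      have := mul_le_mul_of_nonneg_right h4 (hv k)
      linarith
    linarith [h1.2, h2.1]
  · intro k
    have h1 := abs_le.1 (hDl b0 k)
    rw [hχb0] at h1
    rw [← hn]
    have h3 : M.sum k / 2 ^ (n + 4) + e * M.sum k ≤ 1 / (8 * N) * M.sum k := by
      have h4 : 1 / 2 ^ (n + 4) + e ≤ 1 / (8 * N) := by linarith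
      have := mul_le_mul_of_nonneg_right h4 (hv k)
      have h5 : M.sum k / 2 ^ (n + 4) = 1 / 2 ^ (n + 4) * M.sum k := by ring
      linarith
    linarith [h1.1]

end H25.Cake
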