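import Pool.Agent.H25.Cake2.WinDef

/-!
# Case A of the core: inequalities   (JOB CO-POLA)

`n = card G`, `λ = lam n j`, `λ' = lam n (j+1) = λ / 2^(7n+26)` (`lam_succ`, `eps n = 1/2^(3n+8)`),
`δ = 1 / 2^(m1 n)`, `δ ≤ λ' / 2^(7n+26)` (`lam_ge`), `ζ = λ / 2^(4n+14)` (so `ζ = 2^(3n+12) λ'`),
`ρ = 1 / 2^(n+3)`, `β = I.card`, `1 ≤ β ≤ n`, `1/(2β) ≥ 1/(2n) ≥ 1/2^(n+1)`.  An agent is HIGH if
`λ y k < t k` and LOW if `t k ≤ λ' y k`; each agent is exactly one of the two.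
`E k b := (k low → b ≠ b0) ∧ (k high → b ∈ I)`;
`x b k = Q b k + A b k - (S1 k + S2 k if b = b0) - (t k if b = g)`; reserve `Z1 + S1`.
PROOF.
* `pm`: `perm_of_card` for `B`, `I`: a low agent is not in `B`, so `σ k ∉ I`, so `σ k ≠ b0`.
* LOW `k`.  `far`: `b = b0`, `b' ≠ b0`: `x b0 k + Z1 k + S1 k = Q b0 k + (A b0 k + Z1 k) - S2 k ≤
  Q b0 k + t k - (ζ/2 - δ) y k` (`A b0 k + Z1 k ≤ (1/2 + ρ + 2 δ) t k ≤ t k`), `t k ≤ λ' y k`,
  `x b' k ≥ Q b' k - t k ≥ Q b0 k - δ y k - λ' y k`; it suffices `2 λ' + 2 δ ≤ ζ / 2`.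
  `near`: `b, b' ≠ b0`: `|x b k - x b' k| ≤ (δ + 2 λ') y k ≤ 3 λ' y k ≤ eps n * (ζ/2 - δ) y k ≤
  eps n * (Z1 k + S1 k)` (`eps n * ζ / 2 = 8 λ'`; `0 ≤ A b k ≤ t k`, `Z1 k ≥ 0`).
* HIGH `k`.  `far`: `b ∉ I` (so `b ≠ b0`), `b' ∈ I` (so `b' ≠ g`): `x b k ≤ Q b k + δ t k`,
  `Z1 k + S1 k ≤ (ρ + δ) t k + (ζ/2 + δ) y k`, `x b' k ≥ Q b' k - (ζ + 2 δ) y k + (1/(2β) - δ) t k`;
  it suffices `(2 ζ + 4 δ) y k ≤ (1/(2β) - ρ - 3 δ) t k`, true: `2 ζ + 4 δ ≤ 4 ζ ≤ λ / 2^(n+3)` and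
  `1/(2β) - ρ - 3 δ ≥ 1 / 2^(n+2)`, `t k > λ y k`.
  `near`: `b, b' ∈ I`: `|x b k - x b' k| ≤ (δ + ζ + 2 δ + 2 δ) y k ≤ 2 ζ y k ≤ eps n (ρ - δ) λ y k ≤
  eps n * (Z1 k + S1 k)` (`eps n * ρ * λ = λ / 2^(4n+11) = 8 ζ`).
* advantage for a HIGH `k` and `b ∈ I`: `x g k = Q g k + A g k - t k`:
  `x b k - x g k - (Z1 k + S1 k) ≥ t k + (1/(2β) - δ) t k - δ t k - δ y k - (ζ + 2 δ) y k - (ρ + δ) t k -
  (ζ/2 + δ) y k ≥ t k / 2 ≥ λ y k / 2 ≥ 2 y k / 2^coreQ` (`coreQ n = m1 n + n + 10`).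
-/

namespace H25.Cake

open H85.Cake H11.Cake

variable {G : Type}

theorem polA_facts (n j : ℕ) (hj : j ≤ n ^ 2) :
    0 < (1 / 2 ^ m1 n : ℝ) ∧ 1 / 2 ^ m1 n ≤ lam n (j + 1) ∧
    lam n j / 2 ^ (4 * n + 15) = 1 / 2 ^ (4 * n + 14) * lam n j / 2 ∧
    eps n * (1 / 2 ^ (4 * n + 14) * lam n j) = 16 * lam n (j + 1) ∧
    eps n * (1 / 2 ^ (n + 3)) = 8 * (1 / 2 ^ (4 * n + 14)) ∧
    2048 * (1 / 2 ^ (4 * n + 14) : ℝ) ≤ 1 / 2 ^ (n + 3) ∧ (1 / 2 ^ (n + 3) : ℝ) ≤ 1 / 8 ∧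
    1 / 2 ^ coreQ n ≤ (1 / 2 ^ m1 n : ℝ) / 1024 := by
  have h2 : ∀ m : ℕ, (1 : ℝ) ≤ 2 ^ m := fun m => one_le_pow₀ (by norm_num)
  refine ⟨by positivity, ?_, ?_, ?_, ?_, ?_, ?_, ?_⟩
  · refine le_trans ?_ (lam_ge (n := n) (j := j + 1) (by omega))
    have h := h2 (7 * n + 26)
    have h' : (0 : ℝ) < 1 / 2 ^ m1 n := by positivity
    nlinarith
  · rw [show 4 * n + 15 = (4 * n + 14) + 1 by ring, pow_succ]
    field_simp
  · rw [lam_succ]
    have e1 : eps n = 1 / 2 ^ (3 * n + 8) := rfl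
    rw [e1]
    have e2 : (2 : ℝ) ^ (4 * n + 14) = 2 ^ (3 * n + 8) * 2 ^ (n + 6) := by
      rw [← pow_add]; congr 1; ring
    have e3 : (2 : ℝ) ^ (n + 10) = 2 ^ (n + 6) * 16 := by
      rw [show n + 10 = (n + 6) + 4 by ring, pow_add]; norm_num
    rw [e2, e3]
    field_simp
  · have e1 : eps n = 1 / 2 ^ (3 * n + 8) := rfl
    rw [e1]
    have e2 : (2 : ℝ) ^ (4 * n + 14) = 2 ^ (3 * n + 8) * (2 ^ (n + 3) * 8) := by
      rw [show (8 : ℝ) = 2 ^ 3 by norm_num, ← pow_add, ← pow_add]; congr 1; ring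
    rw [e2]
    field_simp
  · have e2 : (2 : ℝ) ^ (4 * n + 14) = 2 ^ (n + 3) * 2048 * 2 ^ (3 * n) := by
      rw [show (2048 : ℝ) = 2 ^ 11 by norm_num, ← pow_add, ← pow_add]; congr 1; ring
    rw [e2, mul_one_div, div_le_div_iff₀ (by positivity) (by positivity)]
    have h := h2 (3 * n)
    have h' : (0 : ℝ) < 2 ^ (n + 3) := by positivity
    nlinarith
  · apply one_div_le_one_div_of_le (by norm_num)
    rw [pow_add]
    have h := h2 n
    norm_num
    linarith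
  · unfold coreQ
    rw [show m1 n + n + 10 = m1 n + (n + 10) by ring, pow_add, one_div, mul_inv, one_div]
    have h : (1024 : ℝ) ≤ 2 ^ (n + 10) := by
      rw [pow_add]
      have h := h2 n
      norm_num
      linarith
    have h' : (0 : ℝ) < (2 ^ m1 n)⁻¹ := by positivity
    have h'' : ((2 : ℝ) ^ (n + 10))⁻¹ ≤ 1 / 1024 := by
      rw [← one_div]
      exact one_div_le_one_div_of_le (by norm_num) h
    nlinarith

theorem polA [Fintype G] [DecidableEq G] (b0 g : G) (hg : g ≠ b0) (j : ℕ)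
    (hj : j ≤ Fintype.card G ^ 2) (Q A : G → G → ℝ) (y t Z1 S1 S2 W : G → ℝ) (B I : Finset G)
    (hy : ∀ k, 0 < y k) (ht0 : ∀ k, 0 ≤ t k) (ht : ∀ k, t k ≤ y k)
    (hwin : ∀ k, t k ≤ lam (Fintype.card G) (j + 1) * y k ∨ lam (Fintype.card G) j * y k < t k)
    (hnear : ∀ k b b', |Q b k - Q b' k| ≤ y k / 2 ^ m1 (Fintype.card G))
    (hB : ∀ k, k ∈ B ↔ lam (Fintype.card G) j * y k < t k) (hb0 : b0 ∈ I) (hgI : g ∉ I)
    (hI : B.card = I.card)
    (hA0 : ∀ b k, 0 ≤ A b k) (hZ0 : ∀ k, 0 ≤ Z1 k)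
    (hA : ∀ b k, |A b k - (if b ∈ I then 1 / (2 * (I.card : ℝ)) else 0) * t k| ≤
      t k / 2 ^ m1 (Fintype.card G))
    (hZ : ∀ k, |Z1 k - 1 / 2 ^ (Fintype.card G + 3) * t k| ≤ t k / 2 ^ m1 (Fintype.card G))
    (hS1 : ∀ k, |S1 k - lam (Fintype.card G) j / 2 ^ (4 * Fintype.card G + 15) * y k| ≤
      y k / 2 ^ m1 (Fintype.card G))
    (hS2 : ∀ k, |S2 k - lam (Fintype.card G) j / 2 ^ (4 * Fintype.card G + 15) * y k| ≤
      y k / 2 ^ m1 (Fintype.card G))
    (hW : ∀ k, Z1 k + S1 k + W k ≤ 2 * y k) :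
    Pol (fun k b => (t k ≤ lam (Fintype.card G) (j + 1) * y k → b ≠ b0) ∧
        (lam (Fintype.card G) j * y k < t k → b ∈ I))
      (fun b k => Q b k + A b k - (if b = b0 then S1 k + S2 k else 0) - if b = g then t k else 0)
      (fun k => Z1 k + S1 k) (eps (Fintype.card G)) ∧
    ∀ k, lam (Fintype.card G) j * y k < t k → ∀ b ∈ I,
      (Z1 k + S1 k + W k) / 2 ^ coreQ (Fintype.card G) ≤
        (Q b k + A b k - (if b = b0 then S1 k + S2 k else 0) - if b = g then t k else 0) -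
          (Q g k + A g k - t k) - (Z1 k + S1 k) := by
  obtain ⟨n, hn⟩ : ∃ n, n = Fintype.card G := ⟨_, rfl⟩
  rw [← hn] at hj hwin hnear hB hA hZ hS1 hS2 ⊢
  obtain ⟨hδ0, hdl, hζ2, hεζ, hερ, hκρ, hρ8, hcore⟩ := polA_facts n j hj
  have hl0 := lam_pos n j
  have hl4 := lam_le n j
  have hl'0 := lam_pos n (j + 1)
  have hε0 := eps_pos n
  have hε1 := eps_le n
  have hκ0 : (0 : ℝ) < 1 / 2 ^ (4 * n + 14) := by positivity
  -- the number r = 1 / (2 β)
  have hβ1 : (1 : ℝ) ≤ (I.card : ℝ) := by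
    have : 0 < I.card := Finset.card_pos.2 ⟨b0, hb0⟩
    exact_mod_cast this
  have hβn : (I.card : ℝ) ≤ 2 ^ n := by
    have h1 : I.card ≤ n := by rw [hn]; exact Finset.card_le_univ I
    have h2 : (I.card : ℝ) ≤ (n : ℝ) := by exact_mod_cast h1
    exact h2.trans (le_two_pow n)
  have hr1 : 1 / (2 * (I.card : ℝ)) ≤ 1 / 2 := by
    apply one_div_le_one_div_of_le (by norm_num)
    linarith
  have hr2 : 4 * (1 / 2 ^ (n + 3) : ℝ) ≤ 1 / (2 * (I.card : ℝ)) := by
    rw [mul_one_div, div_le_div_iff₀ (by positivity) (by positivity), pow_add]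
    linarith
  obtain ⟨r, hr⟩ : ∃ r : ℝ, r = 1 / (2 * (I.card : ℝ)) := ⟨_, rfl⟩
  rw [← hr] at hr1 hr2
  -- names
  obtain ⟨δ, hδ⟩ : ∃ δ : ℝ, δ = 1 / 2 ^ m1 n := ⟨_, rfl⟩
  obtain ⟨κ, hκ⟩ : ∃ κ : ℝ, κ = 1 / 2 ^ (4 * n + 14) := ⟨_, rfl⟩
  obtain ⟨ρ, hρ⟩ : ∃ ρ : ℝ, ρ = 1 / 2 ^ (n + 3) := ⟨_, rfl⟩
  obtain ⟨q, hq⟩ : ∃ q : ℝ, q = 1 / 2 ^ coreQ n := ⟨_, rfl⟩
  have hq0 : 0 < q := by rw [hq]; positivity
  rw [← hδ] at hδ0 hdl hcore
  rw [← hκ] at hζ2 hεζ hερ hκρ hκ0
  rw [← hρ] at hερ hκρ hρ8 hr2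
  rw [← hq] at hcore
  have hdiv : ∀ x : ℝ, x / 2 ^ m1 n = δ * x := fun x => by rw [hδ]; ring
  have hcoreW : ∀ x : ℝ, x / 2 ^ coreQ n = q * x := fun x => by rw [hq]; ring
  simp only [hcoreW]
  simp only [hdiv] at hnear
  simp only [hdiv, ← hr] at hA
  simp only [hdiv, ← hρ] at hZ
  simp only [hdiv, hζ2] at hS1 hS2
  clear hζ2 hdiv hcoreW hq hδ hκ hρ
  generalize lam n j = l at *
  generalize lam n (j + 1) = l' at *
  generalize eps n = ε at *
  -- consequences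
  have hl'κ : 4096 * l' ≤ κ * l := by nlinarith [mul_pos hκ0 hl0]
  have hδκ : 4096 * δ ≤ κ * l := by linarith
  have hερl : ε * (ρ * l) = 8 * (κ * l) := by
    calc ε * (ρ * l) = (ε * ρ) * l := by ring
      _ = _ := by rw [hερ]; ring
  have hρ0 : 0 < ρ := by linarith
  -- unpacked hypotheses
  have hN : ∀ k b b', Q b k - Q b' k ≤ δ * y k := fun k b b' => (abs_le.1 (hnear k b b')).2
  have hAI : ∀ b ∈ I, ∀ k, (r - δ) * t k ≤ A b k ∧ A b k ≤ (r + δ) * t k := by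
    intro b hb k
    have h := abs_le.1 (hA b k)
    rw [if_pos hb] at h
    constructor <;> nlinarith [h.1, h.2]
  have hAO : ∀ b, b ∉ I → ∀ k, A b k ≤ δ * t k := by
    intro b hb k
    have h := abs_le.1 (hA b k)
    rw [if_neg hb] at h
    nlinarith [h.1, h.2]
  have hAt : ∀ b k, A b k ≤ (1 / 2 + δ) * t k := by
    intro b k
    by_cases hb : b ∈ I
    · have h1 := (hAI b hb k).2
      have h2 : (r + δ) * t k ≤ (1 / 2 + δ) * t k :=
        mul_le_mul_of_nonneg_right (by linarith) (ht0 k)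
      linarith
    · have h1 := hAO b hb k
      nlinarith [ht0 k]
  have hZ1 : ∀ k, (ρ - δ) * t k ≤ Z1 k ∧ Z1 k ≤ (ρ + δ) * t k := by
    intro k
    have h := abs_le.1 (hZ k)
    constructor <;> nlinarith [h.1, h.2]
  have hS1' : ∀ k, (κ * l / 2 - δ) * y k ≤ S1 k ∧ S1 k ≤ (κ * l / 2 + δ) * y k := by
    intro k
    have h := abs_le.1 (hS1 k)
    constructor <;> nlinarith [h.1, h.2]
  have hS2' : ∀ k, (κ * l / 2 - δ) * y k ≤ S2 k ∧ S2 k ≤ (κ * l / 2 + δ) * y k := by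
    intro k
    have h := abs_le.1 (hS2 k)
    constructor <;> nlinarith [h.1, h.2]
  have hδs : δ ≤ 1 / 4096 := by nlinarith
  -- low and high are exclusive
  have hl'l : l' < l := by nlinarith
  have hexcl : ∀ k, t k ≤ l' * y k → ¬ l * y k < t k := by
    intro k h1 h2
    nlinarith [hy k]
  have hδy : ∀ k, 4096 * (δ * y k) ≤ κ * l * y k := by
    intro k
    have := mul_le_mul_of_nonneg_right hδκ (hy k).le
    linarith
  have hδt : ∀ k, δ * t k ≤ δ * y k := fun k => mul_le_mul_of_nonneg_left (ht k) hδ0.le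
  refine ⟨⟨?_, ?_, ?_⟩, ?_⟩
  · obtain ⟨σ, hσ⟩ := perm_of_card B I hI
    refine ⟨σ, fun k => ⟨fun h1 h2 => ?_, fun h1 => (hσ k).1 ((hB k).2 h1)⟩⟩
    rw [← h2] at hb0
    exact hexcl k h1 ((hB k).1 ((hσ k).2 hb0))
  · intro k b b' hE hE'

    rcases hwin k with hlow | hhigh
    · have hb' : b' ≠ b0 := hE'.1 hlow
      have hb : b = b0 := by
        by_contra h
        exact hE ⟨fun _ => h, fun h' => absurd h' (hexcl k hlow)⟩
      subst hb
      rw [if_pos rfl, if_neg hb', if_neg hg.symm]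
      have h1 := hN k b b'
      have h2 := hAt b k
      have h3 := (hZ1 k).2
      have h4 := (hS2' k).1
      have h5 := hA0 b' k
      have h6 : (if b' = g then t k else 0) ≤ t k := by
        split_ifs
        · exact le_rfl
        · exact ht0 k
      have h7 : 4096 * (l' * y k) ≤ κ * l * y k := by
        have := mul_le_mul_of_nonneg_right hl'κ (hy k).le
        linarith
      have h8 := hδy k
      have h9 := hδt k
      have h10 : ρ * t k ≤ 1 / 8 * t k := mul_le_mul_of_nonneg_right hρ8 (ht0 k)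
      have h11 : 0 < κ * l * y k := by have := hy k; positivity
      linarith [ht0 k]
    · have hb' : b' ∈ I := hE'.2 hhigh
      have hb : b ∉ I := by
        intro h
        exact hE ⟨fun h' => absurd hhigh (hexcl k h'), fun _ => h⟩
      have hbb0 : b ≠ b0 := fun h => hb (h ▸ hb0)
      have hb'g : b' ≠ g := fun h => hgI (h ▸ hb')
      rw [if_neg hbb0, if_neg hb'g]
      have h1 := hN k b b'
      have h2 := hAO b hb k
      have h3 := (hZ1 k).2
      have h4 := (hS2' k).2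
      have h5 := (hAI b' hb' k).1
      have h6 : 0 ≤ (if b = g then t k else 0) := by
        split_ifs
        · exact ht0 k
        · exact le_rfl
      have h7 : (if b' = b0 then S1 k + S2 k else 0) ≤ (κ * l + 2 * δ) * y k := by
        have h7 := (hS1' k).2
        have h8 := (hS1' k).1
        have h9 := (hS2' k).2
        have h10 := hδy k
        have h11 : 0 < κ * l * y k := by have := hy k; positivity
        have h12 : 0 < δ * y k := by have := hy k; positivity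
        split_ifs <;> linarith
      have h8 := (hS1' k).2
      have h9 := hδy k
      have h10 := hδt k
      have h11 : κ * l * y k ≤ κ * t k := by
        have := mul_le_mul_of_nonneg_left hhigh.le hκ0.le
        linarith
      have h12 : 4 * ρ * t k ≤ r * t k := mul_le_mul_of_nonneg_right hr2 (ht0 k)
      have h13 : 2048 * κ * t k ≤ ρ * t k := mul_le_mul_of_nonneg_right hκρ (ht0 k)
      have h14 : 0 < κ * l * y k := by have := hy k; positivity
      linarith [ht0 k]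
  · intro k b b' hE hE'

    rcases hwin k with hlow | hhigh
    · have hb' : b' ≠ b0 := hE'.1 hlow
      have hb : b ≠ b0 := hE.1 hlow
      rw [if_neg hb, if_neg hb']
      have h1 := hN k b b'
      have h1' := hN k b' b
      have h2 := hAt b k
      have h2' := hAt b' k
      have h3 := hA0 b k
      have h3' := hA0 b' k
      have h4 : (if b = g then t k else 0) ≤ t k ∧ 0 ≤ (if b = g then t k else 0) := by
        split_ifs
        · exact ⟨le_rfl, ht0 k⟩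
        · exact ⟨ht0 k, le_rfl⟩
      have h4' : (if b' = g then t k else 0) ≤ t k ∧ 0 ≤ (if b' = g then t k else 0) := by
        split_ifs
        · exact ⟨le_rfl, ht0 k⟩
        · exact ⟨ht0 k, le_rfl⟩
      have h5 : ε * ((κ * l / 2 - δ) * y k) ≤ ε * (Z1 k + S1 k) := by
        refine mul_le_mul_of_nonneg_left ?_ hε0.le
        linarith [(hS1' k).1, hZ0 k]
      have h6 : ε * ((κ * l / 2 - δ) * y k) = 8 * (l' * y k) - ε * (δ * y k) := by
        calc ε * ((κ * l / 2 - δ) * y k) = ε * (κ * l) * y k / 2 - ε * (δ * y k) := by ring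
          _ = _ := by rw [hεζ]; ring
      have h7 : ε * (δ * y k) ≤ 1 / 256 * (δ * y k) :=
        mul_le_mul_of_nonneg_right hε1 (by have := hy k; positivity)
      have h8 : δ * y k ≤ l' * y k := mul_le_mul_of_nonneg_right hdl (hy k).le
      have h9 : 0 < δ * y k := by have := hy k; positivity
      have h10 : δ * t k ≤ 1 / 4096 * t k := mul_le_mul_of_nonneg_right hδs (ht0 k)
      rw [abs_le]
      constructor <;> linarith [ht0 k, h4.1, h4.2, h4'.1, h4'.2]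
    · have hb' : b' ∈ I := hE'.2 hhigh
      have hb : b ∈ I := hE.2 hhigh
      have hbg : b ≠ g := fun h => hgI (h ▸ hb)
      have hb'g : b' ≠ g := fun h => hgI (h ▸ hb')
      rw [if_neg hbg, if_neg hb'g]
      have h1 := hN k b b'
      have h1' := hN k b' b
      have h2 := hAI b hb k
      have h2' := hAI b' hb' k
      have h7 : 0 < κ * l * y k := by have := hy k; positivity
      have h8 := hδy k
      have h9 : 0 < δ * y k := by have := hy k; positivity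
      have hs : ∀ b : G, 0 ≤ (if b = b0 then S1 k + S2 k else 0) ∧
          (if b = b0 then S1 k + S2 k else 0) ≤ (κ * l + 2 * δ) * y k := by
        intro b
        have h10 := hS1' k
        have h11 := hS2' k
        split_ifs
        · constructor <;> linarith [h10.1, h10.2, h11.1, h11.2]
        · constructor <;> linarith
      have h3 := hs b
      have h3' := hs b'
      have h10 := hδt k
      have h5 : ε * ((ρ - δ) * (l * y k)) ≤ ε * (Z1 k + S1 k) := by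
        refine mul_le_mul_of_nonneg_left ?_ hε0.le
        have h11 : (ρ - δ) * (l * y k) ≤ (ρ - δ) * t k := by
          refine mul_le_mul_of_nonneg_left hhigh.le ?_
          nlinarith
        linarith [(hS1' k).1, (hZ1 k).1]
      have h6 : ε * ((ρ - δ) * (l * y k)) = 8 * (κ * l * y k) - ε * (δ * l * y k) := by
        calc ε * ((ρ - δ) * (l * y k)) = ε * (ρ * l) * y k - ε * (δ * l * y k) := by ring
          _ = _ := by rw [hερl]; ring
      have h11 : ε * (δ * l * y k) ≤ δ * y k := by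
        have h12 : ε * l ≤ 1 := by nlinarith
        calc ε * (δ * l * y k) = (ε * l) * (δ * y k) := by ring
          _ ≤ 1 * (δ * y k) := mul_le_mul_of_nonneg_right h12 h9.le
          _ = δ * y k := one_mul _
      rw [abs_le]
      constructor <;> linarith [h2.1, h2.2, h2'.1, h2'.2, h3.1, h3.2, h3'.1, h3'.2]
  · intro k hhigh b hb
    have hbg : b ≠ g := fun h => hgI (h ▸ hb)
    rw [if_neg hbg]
    have h1 := hN k g b
    have h2 := hAO g hgI k
    have h3 := (hZ1 k).2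
    have h5 := (hAI b hb k).1
    have h7 : (if b = b0 then S1 k + S2 k else 0) ≤ (κ * l + 2 * δ) * y k := by
      have h7 := (hS1' k).2
      have h9 := (hS2' k).2
      have h11 : 0 < κ * l * y k := by have := hy k; positivity
      have h12 : 0 < δ * y k := by have := hy k; positivity
      split_ifs <;> linarith
    have h8 := (hS1' k).2
    have h9 := hδy k
    have h10 := hδt k
    have h11 : κ * l * y k ≤ κ * t k := by
      have := mul_le_mul_of_nonneg_left hhigh.le hκ0.le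
      linarith
    have h12 : 4 * ρ * t k ≤ r * t k := mul_le_mul_of_nonneg_right hr2 (ht0 k)
    have h13 : 2048 * κ * t k ≤ ρ * t k := mul_le_mul_of_nonneg_right hκρ (ht0 k)
    have h14 : 0 < κ * l * y k := by have := hy k; positivity
    have h15 : q * (Z1 k + S1 k + W k) ≤ q * (2 * y k) := mul_le_mul_of_nonneg_left (hW k) hq0.le
    have h16 : q * (2 * y k) ≤ δ / 1024 * (2 * y k) :=
      mul_le_mul_of_nonneg_right hcore (by have := hy k; positivity)
    have h17 : ρ * t k ≤ 1 / 8 * t k := mul_le_mul_of_nonneg_right hρ8 (ht0 k)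
    linarith [ht0 k]

end H25.Cake
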