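import Pool.Agent.H25.Cake2.MarketDef

/-!
# Case B of the core: inequalities   (JOB CO-POLB)

`n = card G`, `ξ = xi n α`, `ξ' = xi n (α+1) = (eps n / 16) * ξ` (`xi_succ`), `ξ0 = xi n 0 ≥ ξ`
(`xi_anti`), `e = 1 / 2^(precB n) = xi n (n^2+1) ≤ ξ'` (`precB n = m1 n + n + 7 + (3n+12) (n^2+1)`),
`ζ = ξ / 4`.  `E k b := slk k b ≤ ξ' * u k`; `x b k = V b k + A b k`.
PROOF.  For `A b k = (τ b - ξ/(4n)) u k ± e u k`:
(*) `x b' k - x b k = slk k b - slk k b' ± 2 e u k`.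
* `pm`: `μ` (`slk k (μ k) = 0`).
* `near`: slacks in `[0, ξ' u k]`, so `|x b k - x b' k| ≤ (ξ' + 2 e) u k ≤ 3 ξ' u k = (3/16) eps n ξ u k ≤
  eps n * (ξ/4 - e) u k ≤ eps n * Z k` (`e ≤ ξ' ≤ ξ/16`).
* `far`: `¬ E k b` gives `slk k b > ξ u k` (`hgap`), `slk k b' ≤ ξ' u k`: `x b' k - x b k ≥
  (ξ - ξ' - 2 e) u k ≥ (ξ/4 + e) u k ≥ Z k`.
* `slk k b0 > ξ0 u k ≥ ξ' u k`: `¬ E k b0`.
* advantage: `x b k - x b0 k - Z k ≥ (ξ0 - ξ' - 2 e - ξ/4 - e) u k ≥ ξ0/2 * u k ≥ u k / 2^coreQ ≥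
  (Z k + W k) / 2^coreQ` (`ξ0 = 8 / 2^coreQ`: `coreQ n = m1 n + n + 10`).
-/

namespace H25.Cake

open H85.Cake H11.Cake

variable {G : Type}

theorem polB [Fintype G] [DecidableEq G] (V A : G → G → ℝ) (u Z W : G → ℝ) (hu : ∀ k, 0 < u k)
    {μ : Equiv.Perm G} {τ : G → ℝ} (hM : Market V u μ τ) (α : ℕ)
    (hα : α ≤ Fintype.card G ^ 2)
    (hgap : ∀ k b, slk V u μ τ k b ≤ xi (Fintype.card G) (α + 1) * u k ∨
      xi (Fintype.card G) α * u k < slk V u μ τ k b)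
    (hA : ∀ b k, |A b k - (τ b - xi (Fintype.card G) α / (4 * (Fintype.card G : ℝ))) * u k| ≤
      u k / 2 ^ precB (Fintype.card G))
    (hZ : ∀ k, |Z k - xi (Fintype.card G) α / 4 * u k| ≤ u k / 2 ^ precB (Fintype.card G))
    (hZW : ∀ k, Z k + W k ≤ u k) :
    Pol (fun k b => slk V u μ τ k b ≤ xi (Fintype.card G) (α + 1) * u k)
      (fun b k => V b k + A b k) Z (eps (Fintype.card G)) ∧
    ∀ k b0, xi (Fintype.card G) 0 * u k < slk V u μ τ k b0 →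
      ¬ (slk V u μ τ k b0 ≤ xi (Fintype.card G) (α + 1) * u k) ∧
      ∀ b, slk V u μ τ k b ≤ xi (Fintype.card G) (α + 1) * u k →
        (Z k + W k) / 2 ^ coreQ (Fintype.card G) ≤
          (V b k + A b k) - (V b0 k + A b0 k) - Z k := by
  obtain ⟨ξ, hξ⟩ : ∃ ξ : ℝ, ξ = xi (Fintype.card G) α := ⟨_, rfl⟩
  obtain ⟨ξ', hξ'⟩ : ∃ ξ' : ℝ, ξ' = xi (Fintype.card G) (α + 1) := ⟨_, rfl⟩
  obtain ⟨ξ0, hξ0⟩ : ∃ ξ0 : ℝ, ξ0 = xi (Fintype.card G) 0 := ⟨_, rfl⟩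
  obtain ⟨e, he⟩ : ∃ e : ℝ, e = 1 / 2 ^ precB (Fintype.card G) := ⟨_, rfl⟩
  obtain ⟨ε, hε⟩ : ∃ ε : ℝ, ε = eps (Fintype.card G) := ⟨_, rfl⟩
  obtain ⟨c, hc⟩ : ∃ c : ℝ, c = xi (Fintype.card G) α / (4 * (Fintype.card G : ℝ)) := ⟨_, rfl⟩
  have hξp : 0 < ξ := by rw [hξ]; exact xi_pos _ _
  have hεp : 0 < ε := by rw [hε]; exact eps_pos _
  have hε1 : ε ≤ 1 / 256 := by rw [hε]; exact eps_le _
  have h1 : ξ' = ε / 16 * ξ := by rw [hξ', hξ, hε]; exact xi_succ _ _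
  have h2 : ξ ≤ ξ0 := by rw [hξ, hξ0]; exact xi_anti _ (Nat.zero_le _)
  have h3 : e ≤ ξ' := by
    have h4 : e = xi (Fintype.card G) (Fintype.card G ^ 2 + 1) := by
      rw [he]
      unfold xi precB
      rfl
    rw [h4, hξ']
    exact xi_anti _ (by omega)
  have h5 : 1 / 2 ^ coreQ (Fintype.card G) = ξ0 / 8 := by
    rw [hξ0]
    unfold xi coreQ
    rw [Nat.mul_zero, Nat.add_zero]
    have h6 : m1 (Fintype.card G) + Fintype.card G + 10 =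
        (m1 (Fintype.card G) + Fintype.card G + 7) + 3 := by ring
    rw [h6, pow_add _ _ 3]
    field_simp
    norm_num
  have he0 : 0 < e := by rw [he]; positivity
  have hξ'p : 0 < ξ' := by rw [h1]; positivity
  have h7 : ξ' ≤ ξ / 16 := by
    rw [h1]
    nlinarith
  have hdiv : ∀ k, u k / 2 ^ precB (Fintype.card G) = e * u k := by
    intro k
    rw [he]
    ring
  have hx : ∀ k b b', |((V b' k + A b' k) - (V b k + A b k)) -
      (slk V u μ τ k b - slk V u μ τ k b')| ≤ 2 * (e * u k) := by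
    intro k b b'
    have h8 := hA b k
    have h9 := hA b' k
    rw [hdiv, ← hc] at h8 h9
    have h10 : ((V b' k + A b' k) - (V b k + A b k)) - (slk V u μ τ k b - slk V u μ τ k b') =
        (A b' k - (τ b' - c) * u k) - (A b k - (τ b - c) * u k) := by
      unfold slk
      ring
    rw [h10]
    rw [abs_le] at h8 h9 ⊢
    constructor <;> linarith [h8.1, h8.2, h9.1, h9.2]
  rw [← hξ] at hgap hZ
  rw [← hξ'] at hgap
  rw [← hξ', ← hξ0, ← hε]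
  have hmul : ∀ k, 0 < u k ∧ e * u k ≤ ξ' * u k ∧ ξ' * u k ≤ ξ / 16 * u k ∧
      ξ * u k ≤ ξ0 * u k ∧ 0 < e * u k ∧ 0 < ξ' * u k ∧ 0 < ξ * u k := by
    intro k
    have hk := hu k
    exact ⟨hk, mul_le_mul_of_nonneg_right h3 hk.le, mul_le_mul_of_nonneg_right h7 hk.le,
      mul_le_mul_of_nonneg_right h2 hk.le, mul_pos he0 hk, mul_pos hξ'p hk, mul_pos hξp hk⟩
  have hZ' : ∀ k, ξ / 4 * u k - e * u k ≤ Z k ∧ Z k ≤ ξ / 4 * u k + e * u k := by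
    intro k
    have h8 := hZ k
    rw [hdiv, abs_le] at h8
    constructor <;> linarith [h8.1, h8.2]
  refine ⟨⟨⟨μ, fun k => ?_⟩, ?_, ?_⟩, ?_⟩
  · have h8 : slk V u μ τ k (μ k) = 0 := by
      unfold slk
      ring
    rw [h8]
    exact (hmul k).2.2.2.2.2.1.le
  · intro k b b' hb hb'
    obtain ⟨m1, m2, m3, m4, m5, m6, m7⟩ := hmul k
    have h8 := (hgap k b).resolve_left hb
    have h9 := hx k b b'
    rw [abs_le] at h9
    have h10 := (hZ' k).2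
    nlinarith [h9.1]
  · intro k b b' hb hb'
    obtain ⟨m1, m2, m3, m4, m5, m6, m7⟩ := hmul k
    have h9 := hx k b' b
    have h11 := hM.opt k b
    have h12 := hM.opt k b'
    rw [abs_le] at h9
    have h10 := (hZ' k).1
    have h13 : 3 / 16 * ξ * u k ≤ Z k := by nlinarith
    have h14 : ε * (3 / 16 * ξ * u k) ≤ ε * Z k := mul_le_mul_of_nonneg_left h13 hεp.le
    have h15 : ε * (3 / 16 * ξ * u k) = 3 * (ξ' * u k) := by
      rw [h1]
      ring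
    rw [h15] at h14
    rw [abs_le]
    constructor <;> linarith [h9.1, h9.2]
  · intro k b0 hb0
    obtain ⟨m1, m2, m3, m4, m5, m6, m7⟩ := hmul k
    refine ⟨fun h => by nlinarith, fun b hb => ?_⟩
    have h9 := hx k b0 b
    rw [abs_le] at h9
    have h10 := (hZ' k).2
    have h11 : (Z k + W k) / 2 ^ coreQ (Fintype.card G) ≤ ξ0 / 8 * u k := by
      rw [div_eq_mul_one_div, h5, mul_comm]
      have h12 : 0 ≤ ξ0 / 8 := by linarith
      exact mul_le_mul_of_nonneg_left (hZW k) h12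
    refine h11.trans ?_
    nlinarith [h9.1]

end H25.Cake
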