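import Pool.Agent.H11.Cake.Basic

/-!
# Case Z of the core: inequalities   (JOB CO-POLZ)

`n = card G`, `δ = 1 / 2^(4n+20)`, `ρ = 1 / 2^(n+3)`, `β = I.card`, `1 ≤ β ≤ n`, so
`1/(2β) ≥ 1/(2n) ≥ 1 / 2^(n+1)` (`le_two_pow`); `1 / 2^(m1 n) ≤ δ` (`m1 n ≥ 14 n + 54`).
`E k b := 0 < y k → b ∈ I`, `x b k = Q b k + A b k - (y k if b = b0)`.
PROOF.
* `pm`: `perm_of_card` for `B = {k | 0 < y k}` and `I`.
* If `y k = 0` (i.e. not `0 < y k`): `A b k = 0`, `Z k = 0`, `Q b k = Q b' k` (`hnear`); `far` is vacuous,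
  `near` is `0 ≤ 0`.
* `0 < y k`, `far`: `b ∉ I`, `b' ∈ I` (so `b' ≠ b0`): `x b' k - x b k - Z k ≥
  (1/(2β) - δ - 1/2^m1 - δ - ρ - δ) * y k ≥ 0` (the term for `b = b0` only helps, as does `y k ≥ 0`).
* `0 < y k`, `near`: `b, b' ∈ I`: `|x b k - x b' k| ≤ (1/2^m1 + 2 δ) y k ≤ 3 δ y k ≤ eps n * (ρ - δ) y k ≤
  eps n * Z k` (`eps n * ρ = 1 / 2^(4n+11) = 512 δ`).
* advantage: `≥ (1 + 1/(2β) - 2 δ - 1/2^m1 - ρ - δ) * y k ≥ y k / 2 ≥ (Z k + W k) / 2^coreQ`
  (`Z k + W k ≤ y k`).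
-/

namespace H25.Cake

open H85.Cake H11.Cake

variable {G : Type}

theorem polZ [Fintype G] [DecidableEq G] (b0 : G) (Q A : G → G → ℝ) (y Z W : G → ℝ)
    (B I : Finset G) (hy : ∀ k, 0 ≤ y k)
    (hnear : ∀ k b b', |Q b k - Q b' k| ≤ y k / 2 ^ m1 (Fintype.card G))
    (hB : ∀ k, k ∈ B ↔ 0 < y k) (hb0 : b0 ∉ I) (hI : B.card = I.card) (hpos : 0 < I.card)
    (hA : ∀ b k, |A b k - (if b ∈ I then 1 / (2 * (I.card : ℝ)) else 0) * y k| ≤
      y k / 2 ^ (4 * Fintype.card G + 20))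
    (hZ : ∀ k, |Z k - 1 / 2 ^ (Fintype.card G + 3) * y k| ≤ y k / 2 ^ (4 * Fintype.card G + 20))
    (hZW : ∀ k, Z k + W k ≤ y k) :
    Pol (fun k b => 0 < y k → b ∈ I) (fun b k => Q b k + A b k - if b = b0 then y k else 0) Z
      (eps (Fintype.card G)) ∧
    ∀ k, 0 < y k → ∀ b ∈ I, (Z k + W k) / 2 ^ coreQ (Fintype.card G) ≤
      (Q b k + A b k) - (Q b0 k + A b0 k - y k) - Z k := by
  classical
  obtain ⟨n, hn⟩ : ∃ n, n = Fintype.card G := ⟨_, rfl⟩
  rw [← hn] at hnear hA hZ ⊢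
  have hcI : I.card ≤ n := by rw [hn]; exact Finset.card_le_univ I
  have hn1 : 1 ≤ n := by omega
  obtain ⟨β, hβ⟩ : ∃ β : ℝ, β = (I.card : ℝ) := ⟨_, rfl⟩
  have hβ1 : (1 : ℝ) ≤ β := by rw [hβ]; exact_mod_cast hpos
  have hβn : β ≤ 2 ^ n := by
    rw [hβ]
    exact le_trans (by exact_mod_cast hcI) (le_two_pow n)
  rw [← hβ] at hA
  obtain ⟨t, ht⟩ : ∃ t : ℝ, t = 1 / (2 * β) := ⟨_, rfl⟩
  obtain ⟨δ, hδ⟩ : ∃ δ : ℝ, δ = 1 / 2 ^ (4 * n + 20) := ⟨_, rfl⟩
  obtain ⟨ρ, hρ⟩ : ∃ ρ : ℝ, ρ = 1 / 2 ^ (n + 3) := ⟨_, rfl⟩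
  obtain ⟨μ, hμ⟩ : ∃ μ : ℝ, μ = 1 / 2 ^ m1 n := ⟨_, rfl⟩
  have hδ0 : 0 < δ := by rw [hδ]; positivity
  have hρ0 : 0 < ρ := by rw [hρ]; positivity
  have hμ0 : 0 < μ := by rw [hμ]; positivity
  have ht0 : 0 < t := by rw [ht]; positivity
  have hμδ : μ ≤ δ := by
    rw [hμ, hδ]
    apply one_div_le_one_div_of_le (by positivity)
    apply pow_le_pow_right₀ (by norm_num)
    unfold m1
    nlinarith
  have htρ : 4 * ρ ≤ t := by
    have h1 : (2 : ℝ) * β ≤ 2 ^ (n + 1) := by rw [pow_succ]; linarith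
    have h2 : 4 * ρ = 1 / 2 ^ (n + 1) := by
      rw [hρ, show n + 3 = (n + 1) + 2 by ring, pow_add 2 (n + 1) 2]
      have h3 : (2 : ℝ) ^ (n + 1) ≠ 0 := by positivity
      generalize (2 : ℝ) ^ (n + 1) = x at h3
      field_simp
      norm_num
    rw [h2, ht]
    exact one_div_le_one_div_of_le (by positivity) h1
  have hδρ : 8 * δ ≤ ρ := by
    have h2 : 8 * δ = 1 / 2 ^ (4 * n + 17) := by
      rw [hδ, show 4 * n + 20 = (4 * n + 17) + 3 by ring, pow_add 2 (4 * n + 17) 3]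
      have h3 : (2 : ℝ) ^ (4 * n + 17) ≠ 0 := by positivity
      generalize (2 : ℝ) ^ (4 * n + 17) = x at h3
      field_simp
      norm_num
    rw [h2, hρ]
    apply one_div_le_one_div_of_le (by positivity)
    exact pow_le_pow_right₀ (by norm_num) (by omega)
  have hρ16 : ρ ≤ 1 / 16 := by
    rw [hρ]
    apply one_div_le_one_div_of_le (by norm_num)
    calc (16 : ℝ) = 2 ^ 4 := by norm_num
      _ ≤ 2 ^ (n + 3) := pow_le_pow_right₀ (by norm_num) (by omega)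
  have hερ : eps n * ρ = 512 * δ := by
    unfold eps
    rw [hρ, hδ, show 4 * n + 20 = (3 * n + 8) + (n + 3) + 9 by ring,
      pow_add 2 ((3 * n + 8) + (n + 3)) 9, pow_add 2 (3 * n + 8) (n + 3)]
    have h3 : (2 : ℝ) ^ (3 * n + 8) ≠ 0 := by positivity
    have h4 : (2 : ℝ) ^ (n + 3) ≠ 0 := by positivity
    generalize (2 : ℝ) ^ (3 * n + 8) = x at h3
    generalize (2 : ℝ) ^ (n + 3) = z at h4
    field_simp
    norm_num
  have hε0 := eps_pos n
  have hε1 := eps_le n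
  have hA' : ∀ b k, |A b k - (if b ∈ I then t else 0) * y k| ≤ δ * y k := by
    intro b k
    have h := hA b k
    rw [← ht] at h
    have h2 : y k / 2 ^ (4 * n + 20) = δ * y k := by rw [hδ]; ring
    rwa [h2] at h
  have hZ' : ∀ k, |Z k - ρ * y k| ≤ δ * y k := by
    intro k
    have h := hZ k
    rw [← hρ] at h
    have h2 : y k / 2 ^ (4 * n + 20) = δ * y k := by rw [hδ]; ring
    rwa [h2] at h
  have hQ' : ∀ k b b', |Q b k - Q b' k| ≤ μ * y k := by
    intro k b b'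
    have h := hnear k b b'
    have h2 : y k / 2 ^ m1 n = μ * y k := by rw [hμ]; ring
    rwa [h2] at h
  have hAI : ∀ b k, b ∈ I → |A b k - t * y k| ≤ δ * y k := by
    intro b k hb
    have := hA' b k
    rwa [if_pos hb] at this
  have hAn : ∀ b k, b ∉ I → |A b k| ≤ δ * y k := by
    intro b k hb
    have := hA' b k
    rwa [if_neg hb, zero_mul, sub_zero] at this
  -- products with y
  have hyρ : ∀ k, 8 * δ * y k ≤ ρ * y k := fun k => mul_le_mul_of_nonneg_right hδρ (hy k)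
  have hyt : ∀ k, 4 * ρ * y k ≤ t * y k := fun k => mul_le_mul_of_nonneg_right htρ (hy k)
  have hyμ : ∀ k, μ * y k ≤ δ * y k := fun k => mul_le_mul_of_nonneg_right hμδ (hy k)
  have hyδ : ∀ k, 0 ≤ δ * y k := fun k => mul_nonneg hδ0.le (hy k)
  have hy16 : ∀ k, ρ * y k ≤ 1 / 16 * y k := fun k => mul_le_mul_of_nonneg_right hρ16 (hy k)
  refine ⟨⟨?_, ?_, ?_⟩, ?_⟩
  · obtain ⟨σ, hσ⟩ := perm_of_card B I hI
    exact ⟨σ, fun k hk => (hσ k).1 ((hB k).2 hk)⟩
  · intro k b b' hb hb'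
    simp only [Classical.not_imp] at hb
    obtain ⟨hk, hbI⟩ := hb
    have hbI' := hb' hk
    have hne : b' ≠ b0 := fun h => hb0 (h ▸ hbI')
    rw [if_neg hne]
    have h1 := abs_le.1 (hAI b' k hbI')
    have h2 := abs_le.1 (hAn b k hbI)
    have h3 := abs_le.1 (hQ' k b b')
    have h4 := abs_le.1 (hZ' k)
    have h5 : 0 ≤ (if b = b0 then y k else 0) := by
      split_ifs
      · exact hy k
      · exact le_rfl
    linarith [h1.1, h2.2, h3.2, h4.2, hyρ k, hyt k, hyμ k, hyδ k]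
  · intro k b b' hb hb'
    rcases (hy k).eq_or_lt with h0 | hk
    · have h0' : y k = 0 := h0.symm
      have h1 : ∀ b, A b k = 0 := by
        intro b
        have := hA' b k
        rw [h0', mul_zero, mul_zero, sub_zero] at this
        exact abs_eq_zero.1 (le_antisymm this (abs_nonneg _))
      have h2 : Z k = 0 := by
        have := hZ' k
        rw [h0', mul_zero, mul_zero, sub_zero] at this
        exact abs_eq_zero.1 (le_antisymm this (abs_nonneg _))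
      have h3 : Q b k = Q b' k := by
        have := hQ' k b b'
        rw [h0', mul_zero] at this
        have := abs_eq_zero.1 (le_antisymm this (abs_nonneg _))
        linarith
      rw [h1, h1, h2, h3, h0']
      simp
    · have hbI := hb hk
      have hbI' := hb' hk
      have hne : b ≠ b0 := fun h => hb0 (h ▸ hbI)
      have hne' : b' ≠ b0 := fun h => hb0 (h ▸ hbI')
      rw [if_neg hne, if_neg hne']
      have h1 := abs_le.1 (hAI b k hbI)
      have h2 := abs_le.1 (hAI b' k hbI')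
      have h3 := abs_le.1 (hQ' k b b')
      have h4 := abs_le.1 (hZ' k)
      have h5 : eps n * Z k ≥ 511 * (δ * y k) := by
        have h6 : eps n * Z k ≥ eps n * (ρ * y k - δ * y k) :=
          mul_le_mul_of_nonneg_left (by linarith [h4.1]) hε0.le
        have h7 : eps n * (ρ * y k) = 512 * (δ * y k) := by
          rw [← mul_assoc, hερ]
          ring
        have h8 : eps n * (δ * y k) ≤ 1 / 256 * (δ * y k) :=
          mul_le_mul_of_nonneg_right hε1 (hyδ k)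
        have h9 : eps n * (ρ * y k - δ * y k) = eps n * (ρ * y k) - eps n * (δ * y k) := by ring
        linarith [hyδ k]
      rw [abs_le]
      constructor
      · linarith [h1.1, h2.2, h3.1, hyμ k, hyδ k]
      · linarith [h1.2, h2.1, h3.2, hyμ k, hyδ k]
  · intro k hk b hb
    have h1 := abs_le.1 (hAI b k hb)
    have h2 := abs_le.1 (hAn b0 k hb0)
    have h3 := abs_le.1 (hQ' k b b0)
    have h4 := abs_le.1 (hZ' k)
    have h5 : (Z k + W k) / 2 ^ coreQ n ≤ 1 / 2 * y k := by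
      have h6 : (Z k + W k) / 2 ^ coreQ n ≤ y k / 2 ^ coreQ n :=
        div_le_div_of_nonneg_right (hZW k) (by positivity)
      have h7 : y k / 2 ^ coreQ n ≤ y k / 2 ^ 1 := by
        apply div_le_div_of_nonneg_left (hy k) (by positivity)
        apply pow_le_pow_right₀ (by norm_num)
        unfold coreQ
        omega
      rw [pow_one] at h7
      linarith
    linarith [h1.1, h2.2, h3.1, h4.2, hyρ k, hyt k, hyμ k, hyδ k, hy16 k]


end H25.Cake
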