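import Pool.Agent.H25.Cake2.Iface

/-!
# Small tools
-/

namespace H25.Cake

open H85.Cake

variable {G : Type}

theorem nn_add {A B : Multiset (G → ℝ)} : NN (A + B) ↔ NN A ∧ NN B := by
  unfold NN
  constructor
  · intro h
    exact ⟨fun v hv => h v (Multiset.mem_add.2 (Or.inl hv)),
      fun v hv => h v (Multiset.mem_add.2 (Or.inr hv))⟩
  · rintro ⟨h1, h2⟩ v hv
    rcases Multiset.mem_add.1 hv with h | h
    · exact h1 v h
    · exact h2 v h

theorem nn_sum {ι : Type} [Fintype ι] {x : ι → Multiset (G → ℝ)} :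
    NN (∑ k, x k) ↔ ∀ k, NN (x k) := by
  classical
  constructor
  · intro h k
    rw [← Finset.add_sum_erase _ _ (Finset.mem_univ k)] at h
    exact (nn_add.1 h).1
  · intro h v hv
    obtain ⟨b, -, hb⟩ := Multiset.mem_sum.1 hv
    exact h b v hb

theorem nn_nonneg {A : Multiset (G → ℝ)} (h : NN A) (k : G) : 0 ≤ A.sum k :=
  (Multiset.sum_nonneg h : (0 : G → ℝ) ≤ A.sum) k

theorem add_apply (A B : Multiset (G → ℝ)) (k : G) : (A + B).sum k = A.sum k + B.sum k := by
  rw [Multiset.sum_add, Pi.add_apply]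

theorem fin_apply {ι : Type} [Fintype ι] (x : ι → Multiset (G → ℝ)) (k : G) :
    (∑ l, x l).sum k = ∑ l, (x l).sum k := by
  have h : (∑ l, x l).sum = ∑ l, (x l).sum := map_sum Multiset.sumAddMonoidHom x Finset.univ
  rw [h, Finset.sum_apply]

theorem le_fin {ι : Type} [Fintype ι] {x : ι → Multiset (G → ℝ)} (h : ∀ l, NN (x l)) (j : ι)
    (k : G) : (x j).sum k ≤ (∑ l, x l).sum k := by
  rw [fin_apply]
  exact Finset.single_le_sum (f := fun l => (x l).sum k) (fun l _ => nn_nonneg (h l) k)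
    (Finset.mem_univ j)

/-- Comparison of negative powers of two: `c * 2^-t ≤ 2^-s` if `c ≤ 2^u` and `s + u ≤ t`. -/
theorem pow_cmp {c : ℝ} {s t u : ℕ} (hc : c ≤ 2 ^ u) (h : s + u ≤ t) :
    c * (1 / 2 ^ t) ≤ 1 / 2 ^ s := by
  have h1 : (2:ℝ) ^ (s + u) ≤ 2 ^ t := pow_le_pow_right₀ (by norm_num) h
  rw [mul_one_div, div_le_div_iff₀ (by positivity) (by positivity), one_mul]
  calc c * 2 ^ s ≤ 2 ^ u * 2 ^ s := mul_le_mul_of_nonneg_right hc (by positivity)
    _ = 2 ^ (s + u) := by rw [← pow_add, add_comm]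
    _ ≤ 2 ^ t := h1

theorem card_le_two_pow [Fintype G] : (Fintype.card G : ℝ) ≤ 2 ^ Fintype.card G := by
  exact_mod_cast (Nat.lt_two_pow_self (n := Fintype.card G)).le

/-- The frame rule in the form used here. -/
theorem Force.frame' {P Q : Multiset (G → ℝ) → Prop} {N : ℕ} {M K : Multiset (G → ℝ)}
    (h : Force P N M) (hPQ : ∀ M', P M' → Q (M' + K)) : Force Q N (M + K) := by
  refine (h.frame K).mono le_rfl ?_
  rintro M' ⟨M₁, h1, rfl⟩
  exact hPQ _ h1

end H25.Cake
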